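import Pool.Agent.R460.GH.Dec
import Pool.Agent.R460.GS.Stm

set_option autoImplicit false

/-!
Project FF: the lower bound for the number of Goldbach representations in the residue classes of every modulus up to
`N ^ (4/5 - ρ)`. The minorant and its decomposition.

Notation: `Z = N ^ (1/5)`, `W = N ^ (1/10)`; `gm N n` is `log N` times `1` minus the number of the different prime
factors of `n` up to `√N`, if `n` has no prime factors up to `Z`, and `0` otherwise. It is at most `0` unless `n` is a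
prime or `1`.
-/

namespace Pool.Agent.T6.H3.FF

open Finset
open Pool.Agent.R460.GS (ro er a1 a2 b1 b2 Sm pmx mu Tw pf_div er_le)
open Pool.Agent.R460.GH (af af_apply mul_ap qz mu1 sum_ap sub_ap dec_af conv_vec mu1_le)

/-- `N ^ (1 / 10)` -/
noncomputable def WW (N : ℕ) : ℕ := ⌊(N : ℝ) ^ (1 / 10 : ℝ)⌋₊

/-- `N ^ (1 / 5)` -/
noncomputable def ZZ (N : ℕ) : ℕ := ⌊(N : ℝ) ^ (1 / 5 : ℝ)⌋₊

/-- the number of the prime factors up to `√N` -/
def om (N n : ℕ) : ℕ := (n.primeFactors.filter (fun p => p ≤ Nat.sqrt N)).card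

/-- the minorant -/
noncomputable def gm (N n : ℕ) : ℝ :=
  if ∀ p ∈ n.primeFactors, ZZ N < p then Real.log N * (1 - (om N n : ℝ)) else 0

/-- the same with complex values -/
noncomputable def GM (N n : ℕ) : ℂ := ((gm N n : ℝ) : ℂ)

/-- the operation `f - q * f` -/
noncomputable def op (Z P : ℕ) (f : ArithmeticFunction ℂ) : ArithmeticFunction ℂ :=
  f - af (qz Z P) * f

/-- the sieve function -/
noncomputable def F1 (Z P : ℕ) : ArithmeticFunction ℂ := op Z P (af (fun n => ((ro Z n : ℝ) : ℂ)))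

lemma op_mul (Z P : ℕ) (f g : ArithmeticFunction ℂ) : op Z P (f * g) = f * op Z P g := by
  unfold op
  ring

lemma op_mul' (Z P : ℕ) (f g : ArithmeticFunction ℂ) : op Z P (f * g) = op Z P f * g := by
  rw [mul_comm, op_mul, mul_comm]

lemma op_add (Z P : ℕ) (f g : ArithmeticFunction ℂ) : op Z P (f + g) = op Z P f + op Z P g := by
  unfold op
  ring

lemma op_sub (Z P : ℕ) (f g : ArithmeticFunction ℂ) : op Z P (f - g) = op Z P f - op Z P g := by
  unfold op
  ring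

lemma op_sum (Z P : ℕ) {ι : Type*} (s : Finset ι) (f : ι → ArithmeticFunction ℂ) :
    op Z P (∑ i ∈ s, f i) = ∑ i ∈ s, op Z P (f i) := by
  unfold op
  rw [mul_sum, ← sum_sub_distrib]

lemma op_ap (Z P : ℕ) (f : ArithmeticFunction ℂ) (n : ℕ) :
    op Z P f n = f n - ∑ d ∈ n.divisors, af (qz Z P) d * f (n / d) := by
  unfold op
  rw [sub_ap, mul_ap]

variable {V : Type*} [NormedAddCommGroup V] [NormedSpace ℂ V]

/-- the decomposition for vectors -/
lemma j2 {W Z P D J y : ℕ} (E : ℕ → V) (c : ℕ → ℕ)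
    (h1 : ∀ m : ℕ, (m.Prime ∧ W < m ∧ m ≤ Z) → c m < J)
    (h2 : ∀ m : ℕ, (Sm W m ∧ D < m ∧ m / pmx m ≤ D) → c (pmx m) < J) :
    ‖∑ n ∈ Icc 1 y, (F1 Z P n) • E n‖ ≤
      ‖∑ m ∈ Icc 1 y, (op Z P (af (mu1 W D)) m) • ∑ b ∈ Icc 1 (y / m), E (b * m)‖ +
      ∑ j ∈ range J, ‖∑ m ∈ Icc 1 y, ∑ k ∈ Icc 1 (y / m), (a2 W D c j m * op Z P (af (b2 W c j)) k) • E (m * k)‖ +
      ∑ j ∈ range J, ‖∑ m ∈ Icc 1 y, ∑ k ∈ Icc 1 (y / m), (a1 W Z c j m * op Z P (af (b1 c j)) k) • E (m * k)‖ +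
      ‖∑ n ∈ Icc 1 y, (op Z P (af (fun n => ((er W Z D c n : ℝ) : ℂ))) n) • E n‖ := by
  classical
  have e0 : F1 Z P = op Z P (af (mu1 W D)) * af (fun _ => 1) +
      ∑ j ∈ range J, af (a2 W D c j) * op Z P (af (b2 W c j)) -
      ∑ j ∈ range J, af (a1 W Z c j) * op Z P (af (b1 c j)) +
      op Z P (af (fun n => ((er W Z D c n : ℝ) : ℂ))) := by
    unfold F1
    rw [dec_af c h1 h2, op_add, op_sub, op_add, op_sum, op_sum, op_mul']
    simp only [op_mul]
  have e1 : ∑ n ∈ Icc 1 y, (F1 Z P n) • E n =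
      ∑ n ∈ Icc 1 y, ((op Z P (af (mu1 W D)) * af (fun _ => 1)) n) • E n +
      ∑ j ∈ range J, ∑ n ∈ Icc 1 y, ((af (a2 W D c j) * op Z P (af (b2 W c j))) n) • E n -
      ∑ j ∈ range J, ∑ n ∈ Icc 1 y, ((af (a1 W Z c j) * op Z P (af (b1 c j))) n) • E n +
      ∑ n ∈ Icc 1 y, (op Z P (af (fun n => ((er W Z D c n : ℝ) : ℂ))) n) • E n := by
    rw [sum_comm (s := range J), sum_comm (s := range J), ← sum_add_distrib, ← sum_sub_distrib, ← sum_add_distrib]
    refine sum_congr rfl fun n _ => ?_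
    rw [← sum_smul, ← sum_smul, ← add_smul, ← sub_smul, ← add_smul]
    congr 1
    rw [e0, ArithmeticFunction.add_apply, sub_ap, ArithmeticFunction.add_apply, sum_ap, sum_ap]
  rw [e1]
  simp only [conv_vec]
  have e2 : ∑ m ∈ Icc 1 y, ∑ k ∈ Icc 1 (y / m), (op Z P (af (mu1 W D)) m * af (fun _ => 1) k) • E (m * k) =
      ∑ m ∈ Icc 1 y, (op Z P (af (mu1 W D)) m) • ∑ b ∈ Icc 1 (y / m), E (b * m) := by
    refine sum_congr rfl fun m _ => ?_
    rw [smul_sum]
    refine sum_congr rfl fun k hk => ?_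
    rw [af_apply (by rw [mem_Icc] at hk; omega), mul_one, mul_comm]
  have e3 : ∀ a : ℕ → ℂ, ∀ g : ArithmeticFunction ℂ,
      ∑ m ∈ Icc 1 y, ∑ k ∈ Icc 1 (y / m), (af a m * g k) • E (m * k) =
      ∑ m ∈ Icc 1 y, ∑ k ∈ Icc 1 (y / m), (a m * g k) • E (m * k) := by
    intro a g
    refine sum_congr rfl fun m hm => sum_congr rfl fun k _ => ?_
    rw [af_apply (by rw [mem_Icc] at hm; omega)]
  rw [e2]
  simp only [e3]
  refine (norm_add_le _ _).trans (add_le_add ?_ le_rfl)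
  refine (norm_sub_le _ _).trans (add_le_add ?_ (norm_sum_le _ _))
  exact (norm_add_le _ _).trans (add_le_add le_rfl (norm_sum_le _ _))

/-- few large prime factors -/
lemma card_big {Z P N n : ℕ} (hn : 1 ≤ n) (hnN : n ≤ N) (hZ : N < (Z + 1) ^ 5) :
    (n.divisors.filter (fun p => p.Prime ∧ Z < p ∧ p ≤ P)).card ≤ 4 := by
  by_contra h
  rw [not_le] at h
  obtain ⟨T, hT⟩ : ∃ T, T = n.divisors.filter (fun p => p.Prime ∧ Z < p ∧ p ≤ P) := ⟨_, rfl⟩
  rw [← hT] at h
  have h1 : ∏ p ∈ T, p ∣ n := by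
    apply Finset.prod_primes_dvd
    · intro p hp
      rw [hT, mem_filter] at hp
      exact hp.2.1.prime
    · intro p hp
      rw [hT, mem_filter] at hp
      exact Nat.dvd_of_mem_divisors hp.1
  have h2 : (Z + 1) ^ T.card ≤ ∏ p ∈ T, p := by
    rw [← prod_const]
    apply prod_le_prod'
    intro p hp
    rw [hT, mem_filter] at hp
    exact hp.2.2.1
  have h3 := (h2.trans (Nat.le_of_dvd hn h1)).trans hnN
  have h4 : (Z + 1) ^ 5 ≤ (Z + 1) ^ T.card := Nat.pow_le_pow_right (by omega) h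
  omega

open Classical in
lemma op_ap' {Z P n : ℕ} (f : ℕ → ℂ) (hn : 1 ≤ n) :
    op Z P (af f) n = f n - ∑ p ∈ n.divisors.filter (fun p => p.Prime ∧ Z < p ∧ p ≤ P), f (n / p) := by
  rw [op_ap, af_apply (by omega), sum_filter]
  congr 1
  refine sum_congr rfl fun d hd => ?_
  have hd' := Nat.dvd_of_mem_divisors hd
  have hd0 : d ≠ 0 := fun h => by rw [h] at hd'; have := Nat.eq_zero_of_zero_dvd hd'; omega
  have hq0 : n / d ≠ 0 := (Nat.div_pos (Nat.le_of_dvd hn hd') (by omega)).ne'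
  rw [af_apply hd0, af_apply hq0]
  unfold qz
  split_ifs
  · rw [one_mul]
  · rw [zero_mul]

lemma op_bd {Z P N n : ℕ} (hn : 1 ≤ n) (hnN : n ≤ N) (hZ : N < (Z + 1) ^ 5) (f : ℕ → ℂ) {X : ℝ}
    (h0 : ‖f n‖ ≤ X) (hX : ∀ p ∈ n.divisors.filter (fun p => p.Prime ∧ Z < p ∧ p ≤ P), ‖f (n / p)‖ ≤ X) :
    ‖op Z P (af f) n‖ ≤ 5 * X := by
  classical
  have hX0 : 0 ≤ X := (norm_nonneg _).trans h0
  rw [op_ap' f hn]
  have h1 : ‖∑ p ∈ n.divisors.filter (fun p => p.Prime ∧ Z < p ∧ p ≤ P), f (n / p)‖ ≤ 4 * X := by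
    refine (norm_sum_le_of_le _ hX).trans ?_
    rw [sum_const, nsmul_eq_mul]
    apply mul_le_mul_of_nonneg_right _ hX0
    exact_mod_cast card_big hn hnN hZ
  have h2 : ‖f n - ∑ p ∈ n.divisors.filter (fun p => p.Prime ∧ Z < p ∧ p ≤ P), f (n / p)‖ ≤
      X + (4 * X) := (norm_sub_le _ _).trans (add_le_add h0 h1)
  linarith

lemma mu1_supp {Z P W D m : ℕ} (hP : 1 ≤ P) (h : op Z P (af (mu1 W D)) m ≠ 0) : m ≤ P * D := by
  classical
  rcases Nat.eq_zero_or_pos m with h0 | h0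
  · omega
  rw [op_ap' _ h0] at h
  by_contra hm
  rw [not_le] at hm
  apply h
  have h1 : ∀ d, D < d → mu1 W D d = 0 := by
    intro d hd
    unfold mu1
    rw [if_neg (fun h => by omega)]
  have h2 : D < m := lt_of_le_of_lt (Nat.le_mul_of_pos_left D hP) hm
  rw [h1 m h2, sum_eq_zero, sub_zero]
  intro p hp
  rw [mem_filter] at hp
  apply h1
  have hpm := Nat.dvd_of_mem_divisors hp.1
  have hp0 : 0 < p := hp.2.1.pos
  by_contra h3
  rw [not_lt] at h3
  have : m ≤ P * D := by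
    calc m = m / p * p := (Nat.div_mul_cancel hpm).symm
      _ ≤ D * P := Nat.mul_le_mul h3 hp.2.2.2
      _ = P * D := Nat.mul_comm _ _
  omega

open Classical in
/-- the error of the decomposition -/
lemma er_op {W Z P D N n : ℕ} (hWZ : W ≤ Z) (hD : 1 ≤ D) (hn : 1 ≤ n) (hnN : n ≤ N) (hZ : N < (Z + 1) ^ 5)
    (c : ℕ → ℕ) (hc : ∀ a b, 1 ≤ a → a ≤ b → c a ≤ c b) :
    ‖op Z P (af (fun n => ((er W Z D c n : ℝ) : ℂ))) n‖ ≤ 5 * (if Tw c n then 2 * (n.divisors.card : ℝ) else 0) := by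
  apply op_bd hn hnN hZ
  · rw [Complex.norm_real, Real.norm_eq_abs]
    exact er_le hWZ hD hn c hc
  · intro p hp
    rw [mem_filter] at hp
    have hpn := Nat.dvd_of_mem_divisors hp.1
    have hp0 : 0 < p := hp.2.1.pos
    have hnp : 1 ≤ n / p := Nat.div_pos (Nat.le_of_dvd hn hpn) hp0
    rw [Complex.norm_real, Real.norm_eq_abs]
    refine (er_le hWZ hD hnp c hc).trans ?_
    by_cases h : Tw c (n / p)
    · have h' : Tw c n := by
        obtain ⟨p₁, p₂, k1, k2, k3, k4, k5⟩ := h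
        exact ⟨p₁, p₂, k1, k2, k3, k4.trans (Nat.div_dvd_of_dvd hpn), k5⟩
      rw [if_pos h, if_pos h']
      have : (n / p).divisors.card ≤ n.divisors.card :=
        card_le_card (Nat.divisors_subset_of_dvd (by omega) (Nat.div_dvd_of_dvd hpn))
      have h2 : (((n / p).divisors.card : ℕ) : ℝ) ≤ (n.divisors.card : ℝ) := by exact_mod_cast this
      linarith
    · rw [if_neg h]
      split_ifs
      · positivity
      · exact le_rfl

lemma ro_le (Z n : ℕ) : ‖((ro Z n : ℝ) : ℂ)‖ ≤ 1 := by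
  unfold ro
  split_ifs <;> simp

open Classical in
/-- the values of the sieve function -/
lemma F1_val {N n : ℕ} (hn : 1 ≤ n) :
    (Real.log N : ℂ) * F1 (ZZ N) (Nat.sqrt N) n = GM N n := by
  unfold F1 GM gm
  rw [op_ap' _ hn]
  have hpf : ∀ p, p ∈ n.primeFactors ↔ p.Prime ∧ p ∣ n := by
    intro p
    rw [Nat.mem_primeFactors]
    exact ⟨fun h => ⟨h.1, h.2.1⟩, fun h => ⟨h.1, h.2, by omega⟩⟩
  by_cases hr : ∀ p ∈ n.primeFactors, ZZ N < p
  · rw [if_pos hr]
    have h1 : ro (ZZ N) n = 1 := by unfold ro; rw [if_pos hr]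
    have h2 : ∀ p ∈ n.divisors.filter (fun p => p.Prime ∧ ZZ N < p ∧ p ≤ Nat.sqrt N),
        ((ro (ZZ N) (n / p) : ℝ) : ℂ) = 1 := by
      intro p hp
      rw [mem_filter] at hp
      have hpn := Nat.dvd_of_mem_divisors hp.1
      have : ro (ZZ N) (n / p) = 1 := by
        unfold ro
        rw [if_pos]
        intro p' hp'
        apply hr
        exact Nat.primeFactors_mono (Nat.div_dvd_of_dvd hpn) (by omega) hp'
      rw [this]
      norm_num
    have h3 : n.divisors.filter (fun p => p.Prime ∧ ZZ N < p ∧ p ≤ Nat.sqrt N) =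
        n.primeFactors.filter (fun p => p ≤ Nat.sqrt N) := by
      ext p
      rw [mem_filter, mem_filter, hpf, Nat.mem_divisors]
      constructor
      · rintro ⟨⟨a, b⟩, c, d, e⟩
        exact ⟨⟨c, a⟩, e⟩
      · rintro ⟨⟨a, b⟩, c⟩
        exact ⟨⟨b, by omega⟩, a, hr p ((hpf p).2 ⟨a, b⟩), c⟩
    rw [sum_congr rfl h2, h1, h3, sum_const, nsmul_eq_mul, mul_one]
    unfold om
    push_cast
    ring
  · rw [if_neg hr]
    have hro : ro (ZZ N) n = 0 := by unfold ro; rw [if_neg hr]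
    rw [hro, sum_eq_zero]
    · simp
    · intro p hp'
      rw [mem_filter] at hp'
      have : ro (ZZ N) (n / p) = 0 := by
        unfold ro
        rw [if_neg]
        intro hall
        apply hr
        intro p' hp''
        by_cases h : p' = p
        · rw [h]; exact hp'.2.2.1
        · have h1 := Nat.mem_primeFactors.1 hp''
          exact hall p' (pf_div (by omega) (Nat.dvd_of_mem_divisors hp'.1) hp'.2.1 h1.1 h1.2.1 h)
      rw [this]
      simp

end Pool.Agent.T6.H3.FF
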