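import Pool.Agent.R460.GH.PrVec
import Pool.Agent.T6.H3.FF.Dec

set_option autoImplicit false

/-! The minorant: reduction to sums of types I and II. -/

namespace Pool.Agent.T6.H3.FF

open Finset
open Pool.Agent.R460.GS (ro er a1 a2 b1 b2 Sm pmx mu Tw JJ cc JJ_le cc_lt ci_mono tw_sum norm_ev1 sm_le)
open Pool.Agent.R460.GH (af mu1 cells l2_vec)
open Pool.Agent.Y883.GJ
open Pool.Agent.H807R2.Dav (ee)
open Pool.Agent.Y614.GJ.Core (ev_log)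

lemma one_le_WW {N : ℕ} (hN : 1 ≤ N) : 1 ≤ WW N := by
  unfold WW
  rw [Nat.one_le_floor_iff]
  exact Real.one_le_rpow (by exact_mod_cast hN) (by norm_num)

lemma WW_le {N : ℕ} (hN : 1 ≤ N) : WW N ≤ ZZ N := by
  unfold WW ZZ
  refine Nat.floor_le_floor ?_
  exact Real.rpow_le_rpow_of_exponent_le (by exact_mod_cast hN) (by norm_num)

lemma ZZ_real {N : ℕ} : (ZZ N : ℝ) ≤ (N : ℝ) ^ (1 / 5 : ℝ) := Nat.floor_le (by positivity)

lemma WW_real {N : ℕ} : (WW N : ℝ) ≤ (N : ℝ) ^ (1 / 10 : ℝ) := Nat.floor_le (by positivity)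

lemma ZZ_le {N : ℕ} (hN : 1 ≤ N) : ZZ N ≤ N := by
  have h1 : (ZZ N : ℝ) ≤ N := by
    refine ZZ_real.trans ?_
    calc (N : ℝ) ^ (1 / 5 : ℝ) ≤ (N : ℝ) ^ (1 : ℝ) :=
          Real.rpow_le_rpow_of_exponent_le (by exact_mod_cast hN) (by norm_num)
      _ = N := Real.rpow_one _
  exact_mod_cast h1

lemma WW_sq_le {N : ℕ} (hN : 1 ≤ N) : WW N * WW N ≤ ZZ N := by
  unfold ZZ
  apply Nat.le_floor
  have h1 := WW_real (N := N)
  have hN0 : (0 : ℝ) < N := by exact_mod_cast hN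
  push_cast
  calc (WW N : ℝ) * WW N ≤ (N : ℝ) ^ (1 / 10 : ℝ) * (N : ℝ) ^ (1 / 10 : ℝ) :=
        mul_le_mul h1 h1 (Nat.cast_nonneg _) (by positivity)
    _ = (N : ℝ) ^ (1 / 5 : ℝ) := by
        rw [← Real.rpow_add hN0]
        norm_num

lemma ZZ_fifth {N : ℕ} (hN : 1 ≤ N) : N < (ZZ N + 1) ^ 5 := by
  have h1 : (N : ℝ) ^ (1 / 5 : ℝ) < (ZZ N : ℝ) + 1 := Nat.lt_floor_add_one _
  have hN0 : (0 : ℝ) < N := by exact_mod_cast hN
  have h3 : ((N : ℝ) ^ (1 / 5 : ℝ)) ^ 5 < ((ZZ N : ℝ) + 1) ^ 5 := by gcongr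
  have h4 : ((N : ℝ) ^ (1 / 5 : ℝ)) ^ 5 = N := by
    rw [← Real.rpow_natCast, ← Real.rpow_mul hN0.le]
    norm_num
  rw [h4] at h3
  exact_mod_cast h3

lemma ZZ_le_sqrt {N : ℕ} (hN : 1 ≤ N) : ZZ N ≤ Nat.sqrt N := by
  rw [Nat.le_sqrt]
  have h1 := ZZ_real (N := N)
  have hN0 : (0 : ℝ) < N := by exact_mod_cast hN
  have h2 : (ZZ N : ℝ) * ZZ N ≤ N := by
    calc (ZZ N : ℝ) * ZZ N ≤ (N : ℝ) ^ (1 / 5 : ℝ) * (N : ℝ) ^ (1 / 5 : ℝ) :=
          mul_le_mul h1 h1 (Nat.cast_nonneg _) (by positivity)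
      _ = (N : ℝ) ^ (2 / 5 : ℝ) := by
          rw [← Real.rpow_add hN0]
          norm_num
      _ ≤ (N : ℝ) ^ (1 : ℝ) := Real.rpow_le_rpow_of_exponent_le (by exact_mod_cast hN) (by norm_num)
      _ = N := Real.rpow_one _
  exact_mod_cast h2

lemma sqrt_half {N : ℕ} : (Nat.sqrt N : ℝ) ≤ (N : ℝ) ^ (1 / 2 : ℝ) := by
  have h1 : ((Nat.sqrt N : ℕ) : ℝ) ≤ Real.sqrt N := Real.nat_sqrt_le_real_sqrt
  refine h1.trans ?_
  rw [Real.sqrt_eq_rpow]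

lemma four_sq {T T1 T2 T3 T4 X : ℝ} (hT0 : 0 ≤ T) (h : T ≤ T1 + T2 + T3 + T4)
    (h1 : T1 ^ 2 ≤ X) (h2 : T2 ^ 2 ≤ X) (h3 : T3 ^ 2 ≤ X) (h4 : T4 ^ 2 ≤ X) : T ^ 2 ≤ 16 * X := by
  have e1 : T ^ 2 ≤ (T1 + T2 + T3 + T4) ^ 2 := pow_le_pow_left₀ hT0 h 2
  have e2 : (T1 + T2 + T3 + T4) ^ 2 ≤ 4 * (T1 ^ 2 + T2 ^ 2 + T3 ^ 2 + T4 ^ 2) := by
    nlinarith [sq_nonneg (T1 - T2), sq_nonneg (T1 - T3), sq_nonneg (T1 - T4),
      sq_nonneg (T2 - T3), sq_nonneg (T2 - T4), sq_nonneg (T3 - T4)]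
  linarith

open Classical in
/-- reduction to sums of types I and II -/
lemma gm_vec (h1 : L2Stm) (A : ℕ) : ∃ N₀ : ℕ, ∀ N : ℕ, N₀ ≤ N → ∀ (q : ℕ) [NeZero q], (q : ℝ) ≤ N →
    ∀ (S : Finset (DirichletCharacter ℂ q)) (β : ℝ) (y : ℕ), y ≤ N →
    (‖∑ m ∈ Icc 1 y, (op (ZZ N) (Nat.sqrt N) (af (mu1 (WW N) (WW N))) m) • ∑ b ∈ Icc 1 (y / m), ev S β (b * m)‖ ^ 2 ≤
      (N : ℝ) ^ 2 / Real.log N ^ (A + 4)) →
    (∀ j ∈ range (JJ N (A + 14)), ‖∑ m ∈ Icc 1 y, ∑ l ∈ Icc 1 (y / m),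
      (a2 (WW N) (WW N) (cc N (A + 14)) j m *
        op (ZZ N) (Nat.sqrt N) (af (b2 (WW N) (cc N (A + 14)) j)) l) • ev S β (m * l)‖ ^ 2 ≤
        (N : ℝ) ^ 2 / Real.log N ^ (A + 2 * (A + 14) + 8)) →
    (∀ j ∈ range (JJ N (A + 14)), ‖∑ m ∈ Icc 1 y, ∑ l ∈ Icc 1 (y / m),
      (a1 (WW N) (ZZ N) (cc N (A + 14)) j m *
        op (ZZ N) (Nat.sqrt N) (af (b1 (cc N (A + 14)) j)) l) • ev S β (m * l)‖ ^ 2 ≤
        (N : ℝ) ^ 2 / Real.log N ^ (A + 2 * (A + 14) + 8)) →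
    ∑ χ ∈ S, ‖cs q y (GM N) β χ‖ ^ 2 ≤ (N : ℝ) ^ 2 / Real.log N ^ A := by
  obtain ⟨N₀, hN₀⟩ := Filter.eventually_atTop.1 (ev_log (A + 5) (s := 1 / 3) (by norm_num) 200000)
  refine ⟨max N₀ 64, fun N hN q _ hqN S β y hy t1 t2 t3 => ?_⟩
  have hN64 : 64 ≤ N := le_trans (le_max_right _ _) hN
  have hN1 : 1 ≤ N := by omega
  have hN0 : (0 : ℝ) < N := by exact_mod_cast hN1
  have hNr1 : (1 : ℝ) ≤ N := by exact_mod_cast hN1
  obtain ⟨hL, hLp⟩ := hN₀ N (le_trans (le_max_left _ _) hN)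
  have hcube := ZZ_fifth hN1
  have hdec := j2 (V := EuclideanSpace ℂ (DirichletCharacter ℂ q)) (W := WW N) (Z := ZZ N) (P := Nat.sqrt N)
    (D := WW N) (J := JJ N (A + 14)) (y := y) (ev S β) (cc N (A + 14))
    (fun m hm => cc_lt hm.1.one_le (hm.2.2.trans (ZZ_le hN1)) (by linarith))
    (fun m hm => by
      have h2 := sm_le (one_le_WW hN1) hm.1 hm.2.1 hm.2.2
      exact cc_lt (by omega) (h2.1.trans ((WW_le hN1).trans (ZZ_le hN1))) (by linarith))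
  have herr : ‖∑ n ∈ Icc 1 y, (op (ZZ N) (Nat.sqrt N)
      (af (fun n => ((er (WW N) (ZZ N) (WW N) (cc N (A + 14)) n : ℝ) : ℂ))) n) • ev S β n‖ ^ 2 ≤
      (N : ℝ) ^ 2 / Real.log N ^ (A + 4) := by
    have e2 : ∑ n ∈ Icc 1 y, ‖op (ZZ N) (Nat.sqrt N)
        (af (fun n => ((er (WW N) (ZZ N) (WW N) (cc N (A + 14)) n : ℝ) : ℂ))) n‖ ^ 2 ≤
        25 * (64 * (Real.log N ^ (A + 14))⁻¹ * N * (1 + Real.log N) ^ 5) := by
      refine le_trans ?_ (mul_le_mul_of_nonneg_left (tw_sum (δ := (Real.log N ^ (A + 14))⁻¹) (by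
        have : 0 < Real.log N := by linarith
        positivity) N) (by norm_num))
      rw [mul_sum]
      refine le_trans (sum_le_sum fun n hn => ?_)
        (sum_le_sum_of_subset_of_nonneg (Icc_subset_Icc le_rfl hy) fun _ _ _ => by positivity)
      rw [mem_Icc] at hn
      refine (pow_le_pow_left₀ (norm_nonneg _) (er_op (WW_le hN1) (one_le_WW hN1) hn.1 (hn.2.trans hy) hcube _
        (fun a b ha hab => ci_mono (by
          have : 0 < Real.log N := by linarith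
          positivity) a b ha hab)) 2).trans (le_of_eq ?_)
      rw [mul_pow]
      norm_num
    refine (l2_vec h1 hqN hy S β _ e2).trans ?_
    obtain ⟨L, hLd⟩ : ∃ L, L = Real.log (N : ℝ) := ⟨_, rfl⟩
    rw [← hLd] at hL ⊢
    have hL0 : 0 < L := by linarith
    calc (2 * (N : ℝ)) * (25 * (64 * (L ^ (A + 14))⁻¹ * N * (1 + L) ^ 5))
        ≤ (2 * N) * (25 * (64 * (L ^ (A + 14))⁻¹ * N * (2 * L) ^ 5)) := by
          gcongr
          linarith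
      _ = (N : ℝ) ^ 2 / L ^ (A + 4) * (102400 / L ^ 5) := by
          rw [show A + 14 = (A + 4) + 5 + 5 by ring, pow_add, pow_add L (A + 4) 5]
          field_simp
          ring
      _ ≤ (N : ℝ) ^ 2 / L ^ (A + 4) * 1 := by
          have h5 : 102400 / L ^ 5 ≤ 1 := by
            rw [div_le_one (by positivity)]
            calc (102400 : ℝ) ≤ L := by linarith
              _ = L ^ 1 := (pow_one L).symm
              _ ≤ L ^ 5 := pow_le_pow_right₀ (by linarith) (by norm_num)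
          gcongr
      _ = _ := mul_one _
  -- the relation between the vectors and the characters
  have hcs : ∑ χ ∈ S, ‖cs q y (GM N) β χ‖ ^ 2 =
      ‖∑ n ∈ Icc 1 y, (F1 (ZZ N) (Nat.sqrt N) n) • ev S β n‖ ^ 2 * Real.log N ^ 2 := by
    rw [norm_ev1 S β (Icc 1 y) (fun n => F1 (ZZ N) (Nat.sqrt N) n) (fun n => n), sum_mul]
    refine sum_congr rfl fun χ _ => ?_
    have e1 : cs q y (GM N) β χ = ((Real.log N : ℝ) : ℂ) *
        ∑ n ∈ Icc 1 y, (F1 (ZZ N) (Nat.sqrt N) n) * (χ (n : ZMod q) * ee (n * β)) := by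
      unfold cs
      rw [mul_sum]
      refine sum_congr rfl fun n hn => ?_
      rw [mem_Icc] at hn
      rw [← F1_val hn.1]
      ring
    rw [e1, norm_mul, mul_pow, Complex.norm_real, Real.norm_eq_abs, sq_abs]
    ring
  rw [hcs]
  have k2 := cells (by linarith) _ t2
  have k3 := cells (by linarith) _ t3
  have hall := four_sq (norm_nonneg _) hdec t1 k2 k3 herr
  obtain ⟨L, hLd⟩ : ∃ L, L = Real.log (N : ℝ) := ⟨_, rfl⟩
  rw [← hLd] at hL hall ⊢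
  have hL0 : 0 < L := by linarith
  calc _ ≤ (16 * ((N : ℝ) ^ 2 / L ^ (A + 4))) * L ^ 2 := mul_le_mul_of_nonneg_right hall (by positivity)
    _ = (N : ℝ) ^ 2 / L ^ A * (16 / L ^ 2) := by
        rw [pow_add]
        field_simp
    _ ≤ (N : ℝ) ^ 2 / L ^ A * 1 := by
        have h5 : 16 / L ^ 2 ≤ 1 := by
          rw [div_le_one (by positivity)]
          nlinarith
        gcongr
    _ = _ := mul_one _

/-- the product of the levels -/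
lemma PW_real {N : ℕ} (hN : 1 ≤ N) : ((Nat.sqrt N * WW N : ℕ) : ℝ) ≤ (N : ℝ) ^ (3 / 5 : ℝ) := by
  have hN0 : (0 : ℝ) < N := by exact_mod_cast hN
  push_cast
  calc (Nat.sqrt N : ℝ) * WW N ≤ (N : ℝ) ^ (1 / 2 : ℝ) * (N : ℝ) ^ (1 / 10 : ℝ) :=
        mul_le_mul sqrt_half WW_real (Nat.cast_nonneg _) (by positivity)
    _ = (N : ℝ) ^ (3 / 5 : ℝ) := by
        rw [← Real.rpow_add hN0]
        congr 1
        norm_num

end Pool.Agent.T6.H3.FF
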