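import Pool.Agent.R453.GS.Wt0
import Pool.Agent.T6.H3.FF.Mod
import Pool.Agent.T6.H3.FF.Vec

set_option autoImplicit false

/-! The local density of the minorant: it is bounded and of bounded variation. -/

namespace Pool.Agent.T6.H3.FF

open Finset Filter Topology
open Pool.Agent.R453.GS (ev_log log_floor sum_pow tv log_num)

/-- the lower bound for the largest prime -/
noncomputable def MM (N m : ℕ) : ℕ := max (m.primeFactors.sup id) (ZZ N)

/-- the cofactors -/
noncomputable def mm (N n : ℕ) : Finset ℕ :=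
  (Icc 1 n).filter (fun m => (∀ p ∈ m.primeFactors, ZZ N < p) ∧ m * MM N m < n)

/-- the density of the primes at `n / m`, divided by `m` -/
noncomputable def gg (n m : ℕ) : ℝ := 1 / ((m : ℝ) * Real.log ((n : ℝ) / m))

/-- the weight -/
noncomputable def kap (N n m : ℕ) : ℝ := (1 - (om N m : ℝ)) - (if n ≤ m * Nat.sqrt N then 1 else 0)

/-- the local density of the minorant -/
noncomputable def Wm (N n : ℕ) : ℝ := Real.log N * ∑ m ∈ mm N n, kap N n m * gg n m

lemma mem_mm {N n m : ℕ} : m ∈ mm N n ↔ (1 ≤ m ∧ m ≤ n) ∧ (∀ p ∈ m.primeFactors, ZZ N < p) ∧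
    m * MM N m < n := by
  unfold mm
  rw [mem_filter, mem_Icc]

/-- large `N` -/
structure Big (N : ℕ) : Prop where
  two : 2 ≤ N
  Z2 : 2 ≤ ZZ N
  L : 0 < Real.log N
  Zl : (1 / 6 : ℝ) * Real.log N ≤ Real.log (ZZ N)

lemma Big.Z5 {N : ℕ} (h : Big N) : N < (ZZ N + 1) ^ 5 := ZZ_fifth (by have := h.two; omega)

lemma big : ∀ᶠ N : ℕ in atTop, Big N := by
  filter_upwards [ev_log 40, eventually_ge_atTop 2] with N hL hN
  obtain ⟨a1, a2, a3⟩ := log_floor (γ := 1 / 5) (by norm_num) hN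
  have hL0 : 0 < Real.log N := by linarith
  have hZl : (1 / 6 : ℝ) * Real.log N ≤ Real.log (ZZ N) := by
    unfold ZZ
    linarith
  refine ⟨hN, ?_, hL0, hZl⟩
  by_contra hcon
  have h1 : ZZ N = 1 := by unfold ZZ at *; omega
  rw [h1, Nat.cast_one, Real.log_one] at hZl
  linarith

/-- the ratio -/
lemma ratio {N n m : ℕ} (hm : m ∈ mm N n) : 1 ≤ m ∧ 1 ≤ n ∧ ((ZZ N : ℕ) : ℝ) < (n : ℝ) / m := by
  rw [mem_mm] at hm
  obtain ⟨⟨h1, h2⟩, _, h3⟩ := hm
  refine ⟨h1, by omega, ?_⟩
  have h4 : m * ZZ N < n := lt_of_le_of_lt (Nat.mul_le_mul_left _ (le_max_right _ _)) h3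
  have h5 : (0 : ℝ) < m := by exact_mod_cast h1
  rw [lt_div_iff₀ h5]
  have h6 : ((m * ZZ N : ℕ) : ℝ) < n := by exact_mod_cast h4
  push_cast at h6
  linarith

lemma le_MM {N m p : ℕ} (h : p ∈ m.primeFactors) : p ≤ MM N m :=
  (Finset.le_sup (f := id) h).trans (le_max_left _ _)

/-- the rough numbers have few prime factors -/
lemma om_le {N n : ℕ} (hN : 1 ≤ N) (hn : 1 ≤ n) (hnN : n ≤ N) (h : ∀ p ∈ n.primeFactors, ZZ N < p) :
    om N n ≤ 4 := by
  refine le_trans ?_ (card_big (Z := ZZ N) (P := Nat.sqrt N) hn hnN (ZZ_fifth hN))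
  unfold om
  apply card_le_card
  intro p hp
  rw [mem_filter] at hp
  rw [mem_filter, Nat.mem_divisors]
  have h1 := Nat.mem_primeFactors.1 hp.1
  exact ⟨⟨h1.2.1, by omega⟩, h1.1, h p hp.1, hp.2⟩

/-- products of the members of a list -/
lemma list_pow {Z : ℕ} (l : List ℕ) (h : ∀ p ∈ l, Z < p) : (Z + 1) ^ l.length ≤ l.prod := by
  induction l with
  | nil => simp
  | cons a l ih =>
    rw [List.length_cons, List.prod_cons, pow_succ, mul_comm]
    exact Nat.mul_le_mul (h a (by simp)) (ih (fun p hp => h p (by simp [hp])))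

/-- at most three prime factors -/
lemma shape {N n m : ℕ} (hB : Big N) (hn : n ≤ N) (hm : m ∈ mm N n) :
    m = 1 ∨ (∃ p : ℕ, m = p ∧ p.Prime ∧ ZZ N < p ∧ p * p < n) ∨
      (∃ p q : ℕ, m = p * q ∧ p.Prime ∧ q.Prime ∧ ZZ N < p ∧ ZZ N < q ∧ p ≤ q ∧ p * q * q < n) ∨
      (∃ p q r : ℕ, m = p * q * r ∧ p.Prime ∧ q.Prime ∧ r.Prime ∧ ZZ N < p ∧ ZZ N < q ∧ ZZ N < r ∧
        p ≤ q ∧ q ≤ r ∧ p * q * r * r < n) := by
  rw [mem_mm] at hm
  obtain ⟨⟨h1, h2⟩, h3, h4⟩ := hm
  have hm0 : m ≠ 0 := by omega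
  have hsup : ∀ p ∈ m.primeFactors, m * p < n := by
    intro p hp
    exact lt_of_le_of_lt (Nat.mul_le_mul_left _ (le_MM hp)) h4
  obtain ⟨l, hl⟩ : ∃ l, l = m.primeFactorsList := ⟨_, rfl⟩
  have hprod : l.prod = m := by rw [hl]; exact Nat.prod_primeFactorsList hm0
  have hpr : ∀ p ∈ l, p.Prime := fun p hp => Nat.prime_of_mem_primeFactorsList (by rw [← hl]; exact hp)
  have hmem : ∀ p ∈ l, p ∈ m.primeFactors := fun p hp => by
    rw [Nat.mem_primeFactors_iff_mem_primeFactorsList, ← hl]; exact hp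
  have hZ : ∀ p ∈ l, ZZ N < p := fun p hp => h3 p (hmem p hp)
  have hsort : l.Pairwise (· ≤ ·) := by
    rw [hl]
    exact (Nat.primeFactorsList_sorted m).pairwise
  match l, hprod, hpr, hmem, hZ, hsort with
  | [], hprod, _, _, _, _ =>
    left
    simpa using hprod.symm
  | [p], hprod, hpr, hmem, hZ, _ =>
    right; left
    have e : m = p := by simpa using hprod.symm
    refine ⟨p, e, hpr p (by simp), hZ p (by simp), ?_⟩
    have := hsup p (hmem p (by simp))
    rwa [e] at this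
  | [p, q], hprod, hpr, hmem, hZ, hsort =>
    right; right; left
    have e : m = p * q := by simpa using hprod.symm
    refine ⟨p, q, e, hpr p (by simp), hpr q (by simp), hZ p (by simp), hZ q (by simp), ?_, ?_⟩
    · simpa using hsort
    · have := hsup q (hmem q (by simp))
      rwa [e] at this
  | [p, q, r], hprod, hpr, hmem, hZ, hsort =>
    right; right; right
    have e : m = p * q * r := by
      have := hprod.symm
      simp only [List.prod_cons, List.prod_nil, mul_one] at this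
      rw [this, mul_assoc]
    refine ⟨p, q, r, e, hpr p (by simp), hpr q (by simp), hpr r (by simp), hZ p (by simp), hZ q (by simp),
      hZ r (by simp), ?_, ?_, ?_⟩
    · simp only [List.pairwise_cons, List.mem_cons, List.not_mem_nil, or_false] at hsort
      exact hsort.1 q (Or.inl rfl)
    · simp only [List.pairwise_cons, List.mem_cons, List.not_mem_nil, or_false] at hsort
      exact hsort.2.1 r rfl
    · have := hsup r (hmem r (by simp))
      rwa [e] at this
  | p :: q :: r :: s :: l', hprod, hpr, hmem, hZ, _ =>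
    exfalso
    have h5 := list_pow _ hZ
    rw [hprod] at h5
    have h6 : (ZZ N + 1) ^ 4 ≤ m := by
      refine le_trans (Nat.pow_le_pow_right (by omega) ?_) h5
      simp only [List.length_cons]
      omega
    have h7 := hsup p (hmem p (by simp))
    have h8 : (ZZ N + 1) ^ 5 ≤ m * p := by
      rw [pow_succ]
      exact Nat.mul_le_mul h6 (hZ p (by simp))
    have := hB.Z5
    omega

/-- the primes between two powers -/
noncomputable def PP (a b : ℝ) (N : ℕ) : Finset ℕ := (Ioc ⌊(N : ℝ) ^ a⌋₊ ⌊(N : ℝ) ^ b⌋₊).filter Nat.Prime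

noncomputable def SP (a b : ℝ) (N : ℕ) : ℝ := ∑ p ∈ PP a b N, (1 : ℝ) / p

lemma SP_nonneg (a b : ℝ) (N : ℕ) : 0 ≤ SP a b N := sum_nonneg fun _ _ => by positivity

/-- comparison of sums -/
lemma sum_cover {ι : Type*} [DecidableEq ι] (s : Finset ℕ) (T : Finset ι) (φ : ι → ℕ) (F : ℕ → ℝ) (G : ι → ℝ)
    (hG : ∀ t ∈ T, 0 ≤ G t) (hc : ∀ m ∈ s, ∃ t ∈ T, φ t = m ∧ F m ≤ G t) :
    ∑ m ∈ s, F m ≤ ∑ t ∈ T, G t := by
  rcases s.eq_empty_or_nonempty with hs | ⟨m₀, hm₀⟩
  · rw [hs, sum_empty]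
    exact sum_nonneg hG
  obtain ⟨t₀, -, -⟩ := hc m₀ hm₀
  have : Nonempty ι := ⟨t₀⟩
  choose! f hf using hc
  have h1 : Set.InjOn f s := by
    intro a ha b hb hab
    rw [← (hf a ha).2.1, ← (hf b hb).2.1, hab]
  calc ∑ m ∈ s, F m ≤ ∑ m ∈ s, G (f m) := sum_le_sum fun m hm => (hf m hm).2.2
    _ = ∑ t ∈ s.image f, G t := (sum_image h1).symm
    _ ≤ ∑ t ∈ T, G t := by
        apply sum_le_sum_of_subset_of_nonneg
        · intro t ht
          rw [mem_image] at ht
          obtain ⟨m, hm, rfl⟩ := ht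
          exact (hf m hm).1
        · intro t ht _
          exact hG t ht

lemma sum_inv_le {N n : ℕ} (hB : Big N) (hn : n ≤ N) :
    ∑ m ∈ mm N n, (1 : ℝ) / m ≤ (1 + SP (1 / 5) 1 N) ^ 3 := by
  classical
  have hN1 : ⌊(N : ℝ) ^ (1 : ℝ)⌋₊ = N := by rw [Real.rpow_one, Nat.floor_natCast]
  obtain ⟨Q, hQ⟩ : ∃ Q, Q = insert 1 (PP (1 / 5) 1 N) := ⟨_, rfl⟩
  have hmem : ∀ p : ℕ, p.Prime → ZZ N < p → p ≤ N → p ∈ Q := by
    intro p hp h1 h2
    rw [hQ]
    apply mem_insert_of_mem
    unfold PP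
    rw [mem_filter, mem_Ioc, hN1]
    exact ⟨⟨h1, h2⟩, hp⟩
  have h1Q : 1 ∈ Q := by rw [hQ]; exact mem_insert_self _ _
  have h1 := sum_cover (mm N n) (Q ×ˢ (Q ×ˢ Q)) (fun t => t.1 * t.2.1 * t.2.2) (fun m => (1 : ℝ) / m)
    (fun t => (1 : ℝ) / t.1 * (1 / t.2.1 * (1 / t.2.2))) (fun t _ => by positivity) (fun m hm => by
      have hmn : m ≤ N := (mem_mm.1 hm).1.2.trans hn
      rcases shape hB hn hm with h | ⟨p, h1, h2, h3, -⟩ | ⟨p, q, h1, h2, h3, h4, h5, -, -⟩ |
        ⟨p, q, r, h1, h2, h3, h4, h5, h6, h7, -, -, -⟩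
      · refine ⟨(1, 1, 1), ?_, ?_, ?_⟩
        · simp only [mem_product]
          exact ⟨h1Q, h1Q, h1Q⟩
        · simp [h]
        · simp [h]
      · refine ⟨(p, 1, 1), ?_, ?_, ?_⟩
        · simp only [mem_product]
          exact ⟨hmem p h2 h3 (by omega), h1Q, h1Q⟩
        · simp [h1]
        · simp [h1]
      · have hp : p ≤ m := by rw [h1]; exact Nat.le_mul_of_pos_right _ h3.pos
        have hq : q ≤ m := by rw [h1]; exact Nat.le_mul_of_pos_left _ h2.pos
        refine ⟨(p, q, 1), ?_, ?_, ?_⟩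
        · simp only [mem_product]
          exact ⟨hmem p h2 h4 (by omega), hmem q h3 h5 (by omega), h1Q⟩
        · simp [h1]
        · rw [h1]
          push_cast
          simp only [div_one, mul_one]
          rw [one_div_mul_one_div]
      · have hpq : p * q ≤ m := by rw [h1]; exact Nat.le_mul_of_pos_right _ h4.pos
        have hp : p ≤ p * q := Nat.le_mul_of_pos_right _ h3.pos
        have hq : q ≤ p * q := Nat.le_mul_of_pos_left _ h2.pos
        have hr : r ≤ m := by rw [h1]; exact Nat.le_mul_of_pos_left _ (Nat.mul_pos h2.pos h3.pos)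
        refine ⟨(p, q, r), ?_, ?_, ?_⟩
        · simp only [mem_product]
          exact ⟨hmem p h2 h5 (by omega), hmem q h3 h6 (by omega), hmem r h4 h7 (by omega)⟩
        · simp [h1]
        · rw [h1]
          push_cast
          rw [one_div_mul_one_div, one_div_mul_one_div, mul_assoc])
  refine h1.trans (le_of_eq ?_)
  have h2 : ∑ i ∈ Q, (1 : ℝ) / i = 1 + SP (1 / 5) 1 N := by
    rw [hQ, sum_insert]
    · unfold SP
      simp
    · intro h
      unfold PP at h
      rw [mem_filter] at h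
      exact Nat.not_prime_one h.2
  rw [← h2, sum_product]
  simp only
  simp_rw [← mul_sum]
  rw [← sum_mul, sum_product]
  simp only
  simp_rw [← mul_sum]
  rw [← sum_mul]
  ring

lemma term_bd {N n m : ℕ} (hB : Big N) (hm : m ∈ mm N n) :
    0 ≤ Real.log N * gg n m ∧ Real.log N * gg n m ≤ 6 / m := by
  obtain ⟨h1, h2, h3⟩ := ratio hm
  have hZ : (2 : ℝ) ≤ ZZ N := by exact_mod_cast hB.Z2
  have hL := hB.L
  have hm0 : (0 : ℝ) < m := by exact_mod_cast h1
  have h4 : Real.log N / 6 ≤ Real.log ((n : ℝ) / m) := by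
    have := Real.log_le_log (by linarith) h3.le
    have := hB.Zl
    linarith
  have h5 : 0 < Real.log ((n : ℝ) / m) := by linarith
  unfold gg
  refine ⟨by positivity, ?_⟩
  rw [mul_one_div, div_le_div_iff₀ (by positivity) hm0]
  nlinarith

lemma kap_abs {N n m : ℕ} (hB : Big N) (hn : n ≤ N) (hm : m ∈ mm N n) : |kap N n m| ≤ 5 := by
  have h1 := mem_mm.1 hm
  have h2 := om_le (by have := hB.two; omega : 1 ≤ N) h1.1.1 (h1.1.2.trans hn) h1.2.1
  have h3 : (om N m : ℝ) ≤ 4 := by exact_mod_cast h2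
  have h4 : (0 : ℝ) ≤ om N m := Nat.cast_nonneg _
  unfold kap
  rw [abs_le]
  split_ifs <;> constructor <;> linarith

/-- one summand, without the condition `n ≤ m √N` -/
noncomputable def hh (N m n : ℕ) : ℝ := if m ∈ mm N n then Real.log N * gg n m else 0

/-- one summand, with the condition `n ≤ m √N` -/
noncomputable def hk (N m n : ℕ) : ℝ := if m ∈ mm N n ∧ n ≤ m * Nat.sqrt N then Real.log N * gg n m else 0

lemma hh_nonneg {N : ℕ} (hB : Big N) (m n : ℕ) : 0 ≤ hh N m n := by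
  unfold hh
  split_ifs with h
  · exact (term_bd hB h).1
  · exact le_rfl

lemma hh_le {N : ℕ} (hB : Big N) (m n : ℕ) : hh N m n ≤ 6 / m := by
  unfold hh
  split_ifs with h
  · exact (term_bd hB h).2
  · positivity

lemma hk_nonneg {N : ℕ} (hB : Big N) (m n : ℕ) : 0 ≤ hk N m n := by
  unfold hk
  split_ifs with h
  · exact (term_bd hB h.1).1
  · exact le_rfl

lemma hk_le {N : ℕ} (hB : Big N) (m n : ℕ) : hk N m n ≤ 6 / m := by
  unfold hk
  split_ifs with h
  · exact (term_bd hB h.1).2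
  · positivity

lemma mm_mono {N n n' : ℕ} (h : n ≤ n') : mm N n ⊆ mm N n' := by
  intro m hm
  rw [mem_mm] at hm ⊢
  exact ⟨⟨hm.1.1, hm.1.2.trans h⟩, hm.2.1, lt_of_lt_of_le hm.2.2 h⟩

lemma Wm_eq {N n : ℕ} (hn : n ≤ N) :
    Wm N n = ∑ m ∈ mm N N, ((1 - (om N m : ℝ)) * hh N m n - hk N m n) := by
  unfold Wm
  rw [mul_sum, ← sum_subset (mm_mono hn)]
  · apply sum_congr rfl
    intro m hm
    unfold hh hk kap
    rw [if_pos hm]
    by_cases h : n ≤ m * Nat.sqrt N
    · rw [if_pos h, if_pos ⟨hm, h⟩]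
      ring
    · rw [if_neg h, if_neg (fun h' => h h'.2)]
      ring
  · intro m _ hm
    unfold hh hk
    rw [if_neg hm, if_neg (fun h => hm h.1)]
    ring

lemma gg_anti {N n m : ℕ} (hB : Big N) (h : m ∈ mm N n) :
    Real.log N * gg (n + 1) m ≤ Real.log N * gg n m := by
  obtain ⟨i1, i2, i3⟩ := ratio h
  have hZ : (2 : ℝ) ≤ ZZ N := by exact_mod_cast hB.Z2
  have i4 : 0 < Real.log ((n : ℝ) / m) := Real.log_pos (by linarith)
  have hm0 : (0 : ℝ) < m := by exact_mod_cast i1
  have i5 : Real.log ((n : ℝ) / m) ≤ Real.log (((n + 1 : ℕ) : ℝ) / m) := by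
    apply Real.log_le_log (by linarith)
    apply div_le_div_of_nonneg_right _ hm0.le
    push_cast
    linarith
  refine mul_le_mul_of_nonneg_left ?_ hB.L.le
  unfold gg
  apply one_div_le_one_div_of_le (by positivity)
  exact mul_le_mul_of_nonneg_left i5 hm0.le

lemma tv_hh {N m : ℕ} (hB : Big N) (hm : m ∈ mm N N) :
    ∑ n ∈ range N, |hh N m (n + 1) - hh N m n| ≤ 12 / m ∧
    ∑ n ∈ range N, |hk N m (n + 1) - hk N m n| ≤ 12 / m := by
  rw [mem_mm] at hm
  obtain ⟨⟨h1, h2⟩, h3, h4⟩ := hm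
  have hM : 2 ≤ MM N m := hB.Z2.trans (le_max_right _ _)
  have hin : ∀ n, m * MM N m < n → m ∈ mm N n := by
    intro n hn
    have g1 : m * 2 ≤ m * MM N m := Nat.mul_le_mul_left _ hM
    exact mem_mm.2 ⟨⟨h1, by omega⟩, h3, hn⟩
  have hout : ∀ n, n ≤ m * MM N m → m ∉ mm N n := by
    intro n hn h
    rw [mem_mm] at h
    omega
  have h7 : (12 : ℝ) / m = 2 * (6 / m) := by ring
  constructor
  · have h5 := tv (f := fun n => hh N m n) (n0 := m * MM N m)
      (B := 6 / m) (by positivity) (hh_nonneg hB m) (fun n hn => by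
        show hh N m n = 0
        unfold hh
        rw [if_neg (hout n hn)]) (fun n hn => by
        show hh N m (n + 1) ≤ hh N m n
        unfold hh
        rw [if_pos (hin n hn), if_pos (hin (n + 1) (by omega))]
        exact gg_anti hB (hin n hn)) (hh_le hB m) N
    have h6 := hh_nonneg hB m N
    rw [h7]
    linarith
  · have h5 := tv (f := fun n => hk N m n) (n0 := m * MM N m)
      (B := 6 / m) (by positivity) (hk_nonneg hB m) (fun n hn => by
        show hk N m n = 0
        unfold hk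
        rw [if_neg (fun h => hout n hn h.1)]) (fun n hn => by
        show hk N m (n + 1) ≤ hk N m n
        by_cases hc : n + 1 ≤ m * Nat.sqrt N
        · unfold hk
          rw [if_pos ⟨hin (n + 1) (by omega), hc⟩, if_pos ⟨hin n hn, by omega⟩]
          exact gg_anti hB (hin n hn)
        · have : hk N m (n + 1) = 0 := by
            unfold hk
            rw [if_neg (fun h => hc h.2)]
          rw [this]
          exact hk_nonneg hB m n) (hk_le hB m) N
    have h6 := hk_nonneg hB m N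
    rw [h7]
    linarith

lemma log5 : Real.log (1 / (1 / 5)) ≤ 2 := log_num (by norm_num) (by norm_num) (by norm_num)

theorem ws : ∃ (c : ℝ) (N₀ : ℕ), ∀ N : ℕ, N₀ ≤ N → WS (Wm N) c N := by
  have hev := (big.and (sum_pow (α := 1 / 5) (β := 1) (by norm_num) (by norm_num) (ε := 1) one_pos))
  obtain ⟨N₀, hN₀⟩ := eventually_atTop.1 hev
  refine ⟨3840, N₀, fun N hN => ?_⟩
  obtain ⟨hB, hS⟩ := hN₀ N hN
  have hS' : SP (1 / 5) 1 N ≤ 3 := by
    have h1 := log5
    unfold SP PP
    linarith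
  have hS0 := SP_nonneg (1 / 5) 1 N
  have hsq : (1 + SP (1 / 5) 1 N) ^ 3 ≤ 64 := by
    calc (1 + SP (1 / 5) 1 N) ^ 3 ≤ 4 ^ 3 := pow_le_pow_left₀ (by linarith) (by linarith) 3
      _ = 64 := by norm_num
  refine ⟨fun n hn => ?_, ?_⟩
  · unfold Wm
    rw [mul_sum]
    refine (abs_sum_le_sum_abs _ _).trans ?_
    calc ∑ m ∈ mm N n, |Real.log N * (kap N n m * gg n m)|
        ≤ ∑ m ∈ mm N n, 30 * ((1 : ℝ) / m) := sum_le_sum fun m hm => by
          have h1 := term_bd hB hm
          have h2 := kap_abs hB hn hm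
          have e : Real.log N * (kap N n m * gg n m) = kap N n m * (Real.log N * gg n m) := by ring
          rw [e, abs_mul, abs_of_nonneg h1.1]
          calc |kap N n m| * (Real.log N * gg n m) ≤ 5 * (6 / m) :=
                mul_le_mul h2 h1.2 h1.1 (by norm_num)
            _ = _ := by ring
      _ = 30 * ∑ m ∈ mm N n, (1 : ℝ) / m := by rw [mul_sum]
      _ ≤ 30 * 64 := mul_le_mul_of_nonneg_left ((sum_inv_le hB hn).trans hsq) (by norm_num)
      _ ≤ 3840 := by norm_num
  · calc ∑ n ∈ range N, |Wm N (n + 1) - Wm N n|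
        ≤ ∑ n ∈ range N, ∑ m ∈ mm N N, (4 * |hh N m (n + 1) - hh N m n| + |hk N m (n + 1) - hk N m n|) := by
          refine sum_le_sum fun n hn => ?_
          rw [mem_range] at hn
          rw [Wm_eq (by omega : n + 1 ≤ N), Wm_eq (by omega : n ≤ N), ← sum_sub_distrib]
          refine (abs_sum_le_sum_abs _ _).trans (sum_le_sum fun m hm => ?_)
          have e : (1 - (om N m : ℝ)) * hh N m (n + 1) - hk N m (n + 1) - ((1 - (om N m : ℝ)) * hh N m n - hk N m n) =
            (1 - (om N m : ℝ)) * (hh N m (n + 1) - hh N m n) - (hk N m (n + 1) - hk N m n) := by ring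
          rw [e]
          refine (abs_sub _ _).trans (add_le_add ?_ le_rfl)
          rw [abs_mul]
          apply mul_le_mul_of_nonneg_right _ (abs_nonneg _)
          have h1 := mem_mm.1 hm
          have h2 := om_le (by have := hB.two; omega : 1 ≤ N) h1.1.1 h1.1.2 h1.2.1
          have h3 : (om N m : ℝ) ≤ 4 := by exact_mod_cast h2
          have h4 : (0 : ℝ) ≤ om N m := Nat.cast_nonneg _
          rw [abs_le]
          constructor <;> linarith
      _ = ∑ m ∈ mm N N, (4 * ∑ n ∈ range N, |hh N m (n + 1) - hh N m n| +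
          ∑ n ∈ range N, |hk N m (n + 1) - hk N m n|) := by
          rw [sum_comm]
          refine sum_congr rfl fun m _ => ?_
          rw [sum_add_distrib, ← mul_sum]
      _ ≤ ∑ m ∈ mm N N, 60 * ((1 : ℝ) / m) := by
          refine sum_le_sum fun m hm => ?_
          obtain ⟨h1, h2⟩ := tv_hh hB hm
          calc 4 * ∑ n ∈ range N, |hh N m (n + 1) - hh N m n| + ∑ n ∈ range N, |hk N m (n + 1) - hk N m n|
              ≤ 4 * (12 / m) + 12 / m := by linarith
            _ = 60 * ((1 : ℝ) / m) := by ring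
      _ = 60 * ∑ m ∈ mm N N, (1 : ℝ) / m := by rw [mul_sum]
      _ ≤ 60 * 64 := mul_le_mul_of_nonneg_left ((sum_inv_le hB le_rfl).trans hsq) (by norm_num)
      _ = 3840 := by norm_num

end Pool.Agent.T6.H3.FF
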