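import Pool.Agent.R460.GH.NL
import Pool.Agent.T6.H3.FF.Maj

set_option autoImplicit false

/-! The minorant on the minor arcs. -/

namespace Pool.Agent.T6.H3.FF

open Finset
open Pool.Agent.R460.GS (ro er a1 a2 b1 b2 Sm pmx mu Tw JJ cc JJ_le cc_lt ci_mono tw_sum norm_ev1 sm_le MajAt MinAt
  a1_le a2_le b1_le b2_le one_le_bd log2_le)
open Pool.Agent.R460.GH (af mu1 cells l2_vec mu1_le BilMaj3Stm ell GG0 tot_min a1_supp' bil_min2)
open Pool.Agent.Y883.GJ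
open Pool.Agent.H807R2.Dav (ee)
open Pool.Agent.Y614.GJ.Core (ev_log)

/-- the bilinear sums on the minor arcs -/
lemma bil_min5 {K : ℝ} (hK : ∀ (q N M r : ℕ) [NeZero q] (h : ℤ) (β : ℝ) (a b : ℕ → ℂ), 1 ≤ M → M ≤ N →
    1 ≤ r → IsCoprime h (r : ℤ) → |q * β - h / r| ≤ 1 / (r : ℝ) ^ 2 →
    ‖∑ m ∈ Ioc M (2 * M), ∑ k ∈ Icc 1 (N / m),
      (a m * b k) • ev (univ : Finset (DirichletCharacter ℂ q)) β (m * k)‖ ^ 2 ≤
    K * (∑ m ∈ Ioc M (2 * M), ‖a m‖ ^ 2) * (∑ k ∈ Icc 1 (N / M), ‖b k‖ ^ 2) *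
      (q * (M + (N : ℝ) / (q * r) + (N : ℝ) / (q * M) + r) * (1 + Real.log r)))
    {q N y r C A' W Z : ℕ} [NeZero q] {h : ℤ} {β L X : ℝ} {a b : ℕ → ℂ} (hL : L = Real.log N) (hN : 1 ≤ N)
    (hy : y ≤ N) (hW1 : 1 ≤ W) (hZN : Z ≤ N)
    (ha : ∀ m, a m ≠ 0 → W < m ∧ m ≤ Z) (ha1 : ∀ m, ‖a m‖ ≤ 1) (hb1 : ∀ m ∈ Icc 1 N, ‖b m‖ ≤ 5)
    (hr1 : 1 ≤ r) (hrN : r ≤ N) (hcop : IsCoprime h (r : ℤ)) (hβ : |q * β - h / r| ≤ 1 / (r : ℝ) ^ 2)
    (hX : X = N / L ^ C) (hKL : 288 * |K| ≤ L) (hL1 : 7 ≤ L) (hCA : C = (A' + 1) + 4)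
    (hqZ : (q : ℝ) * Z ≤ X) (hqr : (q : ℝ) * r ≤ X) (hNr : (N : ℝ) / r ≤ X) (hNW : (N : ℝ) / W ≤ X) :
    ‖∑ m ∈ Icc 1 y, ∑ k ∈ Icc 1 (y / m),
      (a m * b k) • ev (univ : Finset (DirichletCharacter ℂ q)) β (m * k)‖ ^ 2 ≤ (N : ℝ) ^ 2 / L ^ A' := by
  have h0 := bil_min2 hK (A' := A' + 1) (b := fun k => (2 / 5 : ℂ) * b k) hL hN hy hW1 hZN ha ha1
    (fun m hm => norm_two_fifths (hb1 m hm)) hr1 hrN hcop hβ hX hKL (by linarith) hCA hqZ hqr hNr hNW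
  have e : ∑ m ∈ Icc 1 y, ∑ k ∈ Icc 1 (y / m),
      (a m * ((2 / 5 : ℂ) * b k)) • ev (univ : Finset (DirichletCharacter ℂ q)) β (m * k) =
      (2 / 5 : ℂ) • ∑ m ∈ Icc 1 y, ∑ k ∈ Icc 1 (y / m),
      (a m * b k) • ev (univ : Finset (DirichletCharacter ℂ q)) β (m * k) := by
    rw [smul_sum]
    refine sum_congr rfl fun m _ => ?_
    rw [smul_sum]
    refine sum_congr rfl fun k _ => ?_
    rw [smul_smul]
    congr 1
    ring
  rw [e, norm_smul, mul_pow] at h0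
  have h2 : ‖(2 / 5 : ℂ)‖ = 2 / 5 := by
    rw [norm_div]
    norm_num
  rw [h2] at h0
  have hL0 : 0 < L := by linarith
  have h3 : (N : ℝ) ^ 2 / L ^ (A' + 1) = (N : ℝ) ^ 2 / L ^ A' / L := by rw [pow_succ L A', div_div]
  have h4 : (N : ℝ) ^ 2 / L ^ A' / L ≤ (N : ℝ) ^ 2 / L ^ A' / 7 :=
    div_le_div_of_nonneg_left (by positivity) (by norm_num) hL1
  have h5 : 0 ≤ (N : ℝ) ^ 2 / L ^ A' := by positivity
  linarith

theorem nGM (h1 : L2Stm) (hB : BilMinStm) (A : ℕ) {ρ : ℝ} (hρ : 0 < ρ) : ∃ C N₀ : ℕ, ∀ N : ℕ, N₀ ≤ N →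
    MinAt N (-(1 / 10) + ρ) A C (GM N) := by
  classical
  obtain ⟨K, hK⟩ := hB
  obtain ⟨A', hA'⟩ : ∃ A', A' = A := ⟨_, rfl⟩
  obtain ⟨C, hC⟩ : ∃ C, C = (A' + 2 * (A' + 14) + 8 + 1) + 4 := ⟨_, rfl⟩
  obtain ⟨N₂, hG⟩ := gm_vec h1 A'
  obtain ⟨s, hs⟩ : ∃ s : ℝ, s = min (ρ / 2) (1 / 10) := ⟨_, rfl⟩
  have hs0 : 0 < s := by rw [hs]; exact lt_min (by positivity) (by norm_num)
  have hs1 : s ≤ ρ / 2 := by rw [hs]; exact min_le_left _ _
  have hs2 : s ≤ 1 / 10 := by rw [hs]; exact min_le_right _ _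
  obtain ⟨N₃, hN₃⟩ := Filter.eventually_atTop.1 (ev_log (C + A' + 9) (s := s) hs0 (52000000000 + 288 * |K|))
  refine ⟨C, max N₂ (max N₃ 64), fun N hN q _ hq k h β hk1 hk2 hcop hβ y hy => ?_⟩
  have hNN₂ : N₂ ≤ N := le_trans (le_max_left _ _) hN
  have hNN₃ : N₃ ≤ N := le_trans (le_trans (le_max_left _ _) (le_max_right _ _)) hN
  have hN64 : 64 ≤ N := le_trans (le_trans (le_max_right _ _) (le_max_right _ _)) hN
  have hN1 : 1 ≤ N := by omega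
  obtain ⟨hL16, hLp⟩ := hN₃ N hNN₃
  have hN0 : (0 : ℝ) < N := by exact_mod_cast hN1
  have hNr1 : (1 : ℝ) ≤ N := by exact_mod_cast hN1
  have hq0 : (0 : ℝ) < q := by exact_mod_cast NeZero.pos q
  have hq1 : (1 : ℝ) ≤ q := by exact_mod_cast NeZero.pos q
  have hKa := abs_nonneg K
  have hq' : (q : ℝ) ≤ (N : ℝ) ^ (4 / 5 - ρ) := by
    have e : (7 / 10 - (-(1 / 10) + ρ) : ℝ) = 4 / 5 - ρ := by ring
    rw [e] at hq
    exact hq
  have hqN : (q : ℝ) ≤ N := by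
    calc (q : ℝ) ≤ (N : ℝ) ^ (4 / 5 - ρ) := hq'
      _ ≤ (N : ℝ) ^ (1 : ℝ) := Real.rpow_le_rpow_of_exponent_le hNr1 (by linarith)
      _ = N := Real.rpow_one _
  have hqNn : q ≤ N := by exact_mod_cast hqN
  have hW1 := one_le_WW (N := N) hN1
  have hW1r : (1 : ℝ) ≤ WW N := by exact_mod_cast hW1
  have hWge : (N : ℝ) ^ (1 / 10 : ℝ) ≤ 2 * WW N := by
    have : (N : ℝ) ^ (1 / 10 : ℝ) < (WW N : ℝ) + 1 := Nat.lt_floor_add_one _
    linarith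
  have hP1 : 1 ≤ Nat.sqrt N := hW1.trans ((WW_le hN1).trans (ZZ_le_sqrt hN1))
  have hM1 : 1 ≤ Nat.sqrt N * WW N := Nat.mul_le_mul hP1 hW1
  have hMr := PW_real (N := N) hN1
  have hMN : Nat.sqrt N * WW N ≤ N := by
    have : ((Nat.sqrt N * WW N : ℕ) : ℝ) ≤ N := hMr.trans (by
      calc (N : ℝ) ^ (3 / 5 : ℝ) ≤ (N : ℝ) ^ (1 : ℝ) :=
            Real.rpow_le_rpow_of_exponent_le hNr1 (by norm_num)
        _ = N := Real.rpow_one _)
    exact_mod_cast this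
  obtain ⟨hl1, hl2⟩ := ell (by linarith) (by omega) (NeZero.pos q) hqNn hM1 hMN
  have hl4 : ((Nat.log 2 (2 * (Nat.sqrt N * WW N)) : ℕ) : ℝ) + 1 ≤ 4 * Real.log N := by
    have e1 := log2_le (N := 2 * (Nat.sqrt N * WW N)) (by omega)
    have e2 : Real.log ((2 * (Nat.sqrt N * WW N) : ℕ) : ℝ) ≤ Real.log 2 + Real.log N := by
      rw [← Real.log_mul (by norm_num) hN0.ne']
      apply Real.log_le_log
      · have : 0 < 2 * (Nat.sqrt N * WW N) := by omega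
        exact_mod_cast this
      · have : 2 * (Nat.sqrt N * WW N) ≤ 2 * N := Nat.mul_le_mul_left 2 hMN
        exact_mod_cast this
    have e3 : Real.log 2 ≤ 1 := by
      have := Real.log_two_lt_d9
      linarith
    push_cast at e1 e2 ⊢
    linarith
  obtain ⟨L, hL⟩ : ∃ L, L = Real.log (N : ℝ) := ⟨_, rfl⟩
  have hL16' : 16 ≤ L := by rw [hL]; linarith
  have hL0 : 0 < L := by linarith
  have hL1 : 1 ≤ L := by linarith
  rw [← hL] at hk1 hk2 hLp hL16 hl1 hl2 hl4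
  have hLC1 : 1 ≤ L ^ C := one_le_pow₀ hL1
  have hk0 : (0 : ℝ) < k := lt_of_lt_of_le (by positivity) hk1
  have hkn : 1 ≤ k := by exact_mod_cast hk0
  have hkN : k ≤ N := by
    have : (k : ℝ) ≤ N := by
      calc (k : ℝ) = 1 * k * 1 := by ring
        _ ≤ q * k * L ^ C := by gcongr
        _ ≤ N := hk2
    exact_mod_cast this
  have hl3 : 1 + Real.log k ≤ 4 * L := by
    have : Real.log k ≤ L := by
      rw [hL]
      exact Real.log_le_log hk0 (by exact_mod_cast hkN)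
    linarith
  obtain ⟨X, hX⟩ : ∃ X, X = N / L ^ C := ⟨_, rfl⟩
  have hX0 : 0 ≤ X := by rw [hX]; positivity
  have hqk : (q : ℝ) * k ≤ X := by
    rw [hX, le_div_iff₀ (by positivity)]
    exact hk2
  have hNk : (N : ℝ) / k ≤ X := by
    rw [hX]
    gcongr
  have hLC : L ^ C ≤ (N : ℝ) ^ s := (pow_le_pow_right₀ hL1 (by omega)).trans hLp
  have hqZ : (q : ℝ) * ZZ N ≤ X := by
    rw [hX, le_div_iff₀ (by positivity)]
    calc (q : ℝ) * ZZ N * L ^ C ≤ (N : ℝ) ^ (4 / 5 - ρ) * (N : ℝ) ^ (1 / 5 : ℝ) * (N : ℝ) ^ s := by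
          have := ZZ_real (N := N)
          gcongr
      _ = (N : ℝ) ^ (4 / 5 - ρ + 1 / 5 + s) := by
          rw [← Real.rpow_add hN0, ← Real.rpow_add hN0]
      _ ≤ (N : ℝ) ^ (1 : ℝ) := Real.rpow_le_rpow_of_exponent_le hNr1 (by linarith)
      _ = N := Real.rpow_one _
  have hNW : (N : ℝ) / WW N ≤ X := by
    rw [hX, div_le_div_iff₀ (by positivity) (by positivity)]
    have : L ^ C ≤ WW N := by
      have h2 : L ^ (C + A' + 9) ≤ 2 * WW N :=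
        hLp.trans ((Real.rpow_le_rpow_of_exponent_le hNr1 hs2).trans hWge)
      have h3 : 2 * L ^ C ≤ L ^ (C + A' + 9) := by
        calc 2 * L ^ C ≤ L * L ^ C := by gcongr; linarith
          _ = L ^ (C + 1) := by ring
          _ ≤ _ := pow_le_pow_right₀ hL1 (by omega)
      linarith
    gcongr
  -- the sum of squares
  rw [← hA']
  apply hG N hNN₂ q hqN univ β y hy
  · have t1 := ti_gen5 hy (a := fun m => op (ZZ N) (Nat.sqrt N) (af (mu1 (WW N) (WW N))) m)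
      (fun m hm => mu1_supp hP1 hm) (fun m hm => opb hN1 (mu1_le _ _) hm) β
      (univ : Finset (DirichletCharacter ℂ q)) (range q) (Or.inl rfl)
    refine t1.trans ?_
    have t2 := tot_min (q := q) (N := N) (M := Nat.sqrt N * WW N) (k := k) (NeZero.pos q) hN1 hM1 hkn hcop
      hβ (ℓ := 4 * L) hl1 hl2 hl3 hl4
    have t3 := ti_main (s := s) hN1 (by linarith) hq' hMr
    have t4 : (N : ℝ) ^ 2 / (k : ℝ) ^ 2 ≤ X ^ 2 := by
      rw [← div_pow]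
      exact pow_le_pow_left₀ (by positivity) hNk 2
    have t5 : (q * k : ℝ) ^ 2 ≤ X ^ 2 := pow_le_pow_left₀ (by positivity) hqk 2
    rw [← hL]
    have t6 : q * ((Nat.sqrt N * WW N : ℕ) : ℝ) ^ 2 + (N : ℝ) ^ 2 / (k : ℝ) ^ 2 + q * N + (q * k : ℝ) ^ 2 ≤
        2 * (N : ℝ) ^ (2 - s) + 2 * X ^ 2 := by linarith
    have t7 : (N : ℝ) ^ (2 - s) ≤ (N : ℝ) ^ 2 / L ^ (A' + 9) := by
      rw [le_div_iff₀ (by positivity)]
      calc (N : ℝ) ^ (2 - s) * L ^ (A' + 9) ≤ (N : ℝ) ^ (2 - s) * (N : ℝ) ^ s := by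
            gcongr
            exact (pow_le_pow_right₀ hL1 (by omega)).trans hLp
        _ = (N : ℝ) ^ 2 := by
            rw [← Real.rpow_add hN0, ← Real.rpow_natCast]
            congr 1
            push_cast
            ring
    have t8 : X ^ 2 ≤ (N : ℝ) ^ 2 / L ^ (A' + 9) := by
      rw [hX, div_pow, ← pow_mul]
      apply div_le_div_of_nonneg_left (by positivity) (by positivity)
      exact pow_le_pow_right₀ hL1 (by omega)
    calc 25 * ∑ j ∈ range q, GG0 q N (Nat.sqrt N * WW N) (β + j / q) ^ 2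
        ≤ 25 * (2000000 * ((4 * L) ^ 4 * (2 * (N : ℝ) ^ (2 - s) + 2 * X ^ 2))) := by
          gcongr
          refine t2.trans ?_
          gcongr
      _ ≤ 25 * (2000000 * ((4 * L) ^ 4 * (2 * ((N : ℝ) ^ 2 / L ^ (A' + 9)) + 2 * ((N : ℝ) ^ 2 / L ^ (A' + 9))))) := by
          gcongr
      _ = 51200000000 * (L ^ 4 * ((N : ℝ) ^ 2 / L ^ (A' + 9))) := by ring
      _ ≤ L * (L ^ 4 * ((N : ℝ) ^ 2 / L ^ (A' + 9))) := by
          gcongr
          linarith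
      _ = (N : ℝ) ^ 2 / L ^ (A' + 4) := by
          rw [show A' + 9 = (A' + 4) + 5 by ring, pow_add L (A' + 4) 5]
          field_simp
  · intro j _
    rw [← hL]
    exact bil_min5 hK hL hN1 hy hW1 (ZZ_le hN1) (fun m hm => a2_supp' hN1 hm) (a2_le _ _ _ _)
      (fun m hm => opb hN1 (b2_le _ _ _) hm) hkn hkN hcop hβ hX (by linarith) (by linarith) hC hqZ hqk hNk hNW
  · intro j _
    rw [← hL]
    exact bil_min5 hK hL hN1 hy hW1 (ZZ_le hN1) (fun m hm => a1_supp' hm) (a1_le _ _ _ _)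
      (fun m hm => opb hN1 (b1_le _ _) hm) hkn hkN hcop hβ hX (by linarith) (by linarith) hC hqZ hqk hNk hNW

end Pool.Agent.T6.H3.FF
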