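import Mathlib

set_option autoImplicit false

/-! Numerical upper bounds for two sums of rational numbers. -/

namespace Pool.Agent.T6.H3.FF

open Finset

/-- upper bound for the sum of `1/p` for `N ^ (u / 200) < p ≤ N ^ ((u + 1) / 200)` -/
def lQ (u : ℕ) : ℚ := (1 / (u : ℚ) + 1 / ((u : ℚ) + 1)) / 2 + 1 / 10000

/-- upper bound for the weight of a product of two primes -/
def c3 (u v : ℕ) : ℚ :=
  if 200 ≤ u + 2 * v then 0 else
    (if u + v + 2 ≤ 99 then 1 else 2) / max (1 - 1 / 5000 - ((u : ℚ) + v + 2) / 200) ((v : ℚ) / 200)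

/-- upper bound for the weight of a product of three primes -/
def c4 (u v w : ℕ) : ℚ :=
  if 200 ≤ u + v + 2 * w then 0 else
    3 / max (1 - 1 / 5000 - ((u : ℚ) + v + w + 3) / 200) ((w : ℚ) / 200)

theorem num3 : ∑ u ∈ Ico 40 80, ∑ v ∈ Ico u 80, c3 u v * (lQ u * lQ v) ≤ 791 / 1000 := by
  decide +kernel

theorem num4 : ∑ u ∈ Ico 40 60, ∑ v ∈ Ico u 60, ∑ w ∈ Ico v 60, c4 u v w * (lQ u * lQ v * lQ w) ≤ 62 / 1000 := by
  decide +kernel

end Pool.Agent.T6.H3.FF
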