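import Pool.Agent.T6.H3.FF.Wt1
import Pool.Agent.T6.H3.FF.Num

set_option autoImplicit false

/-! The local density of the minorant: lower bound. -/

namespace Pool.Agent.T6.H3.FF

open Finset Filter Topology
open Pool.Agent.R453.GS (ev_log log_floor sum_pow log_num)

/-- the logarithm of a ratio of consecutive integers -/
lemma log_step {u : ℕ} (hu : 1 ≤ u) : Real.log (((u : ℝ) + 1) / u) ≤ (1 / (u : ℝ) + 1 / ((u : ℝ) + 1)) / 2 := by
  have hu0 : (0 : ℝ) < u := by exact_mod_cast hu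
  have h1 : 0 ≤ Real.log (((u : ℝ) + 1) / u) := Real.log_nonneg (by
    rw [le_div_iff₀ hu0]
    linarith)
  have h2 := (Real.self_le_sinh_iff).2 h1
  rw [Real.sinh_log (by positivity)] at h2
  refine h2.trans (le_of_eq ?_)
  field_simp
  ring

/-- the cells -/
noncomputable def PU (u N : ℕ) : Finset ℕ := PP ((u : ℝ) / 200) (((u : ℝ) + 1) / 200) N

noncomputable def SU (u N : ℕ) : ℝ := SP ((u : ℝ) / 200) (((u : ℝ) + 1) / 200) N

lemma SU_nonneg (u N : ℕ) : 0 ≤ SU u N := SP_nonneg _ _ _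

/-- eventually all numerical conditions -/
lemma ev_all (B : ℕ) : ∀ᶠ N : ℕ in atTop, Big N ∧ 1 ≤ Real.log N ∧ B * Real.log (Real.log N) ≤ 1 / 5000 * Real.log N ∧
    (∀ u ∈ Ico 40 80, SU u N ≤ (lQ u : ℝ)) ∧ SP (4995 / 10000) (1 / 2) N ≤ 12 / 10000 := by
  have h1 : ∀ u ∈ Ico 40 80, ∀ᶠ N : ℕ in atTop, SU u N ≤ (lQ u : ℝ) := by
    intro u hu
    rw [mem_Ico] at hu
    have hu0 : (0 : ℝ) < u := by exact_mod_cast (by omega : 0 < u)
    have h2 := sum_pow (α := (u : ℝ) / 200) (β := ((u : ℝ) + 1) / 200) (by positivity) (by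
      apply div_le_div_of_nonneg_right _ (by norm_num)
      linarith) (ε := 1 / 10000) (by norm_num)
    filter_upwards [h2] with N hN
    unfold SU SP PP
    refine hN.trans ?_
    have e : ((u : ℝ) + 1) / 200 / ((u : ℝ) / 200) = ((u : ℝ) + 1) / u := by field_simp
    rw [e]
    have h3 := log_step (u := u) (by omega)
    unfold lQ
    push_cast
    linarith
  have h1' := (Filter.eventually_all_finset (Ico 40 80)).2 h1
  have h4 := sum_pow (α := 4995 / 10000) (β := 1 / 2) (by norm_num) (by norm_num) (ε := 1 / 10000) (by norm_num)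
  have hLT : Tendsto (fun N : ℕ => Real.log (N : ℝ)) atTop atTop :=
    Real.tendsto_log_atTop.comp tendsto_natCast_atTop_atTop
  have h5 : ∀ᶠ L : ℝ in atTop, B * Real.log L ≤ 1 / 5000 * L := by
    have h6 := Real.isLittleO_log_id_atTop.bound (show (0 : ℝ) < 1 / (5000 * (B + 1)) by positivity)
    filter_upwards [h6, eventually_ge_atTop 1] with L h7 h8
    have h9 : 0 ≤ Real.log L := Real.log_nonneg h8
    rw [Real.norm_of_nonneg h9, id, Real.norm_of_nonneg (by linarith)] at h7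
    have h10 : (B + 1 : ℝ) * Real.log L ≤ 1 / 5000 * L := by
      calc (B + 1 : ℝ) * Real.log L ≤ (B + 1 : ℝ) * (1 / (5000 * (B + 1)) * L) :=
            mul_le_mul_of_nonneg_left h7 (by positivity)
        _ = 1 / 5000 * L := by field_simp
    linarith
  filter_upwards [big, hLT.eventually_ge_atTop 1, hLT.eventually h5, h1', h4] with N hB hL hBL h1 h4
  refine ⟨hB, hL, hBL, h1, ?_⟩
  have h11 : Real.log ((1 / 2 : ℝ) / (4995 / 10000)) ≤ 11 / 10000 := by
    have := Real.log_le_sub_one_of_pos (show (0 : ℝ) < (1 / 2 : ℝ) / (4995 / 10000) by norm_num)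
    refine this.trans ?_
    norm_num
  unfold SP PP
  linarith

lemma PP_mem {a b : ℝ} {N p : ℕ} : p ∈ PP a b N ↔ (⌊(N : ℝ) ^ a⌋₊ < p ∧ p ≤ ⌊(N : ℝ) ^ b⌋₊) ∧ p.Prime := by
  unfold PP
  rw [mem_filter, mem_Ioc]

lemma PP_lo {a b : ℝ} {N p : ℕ} (h : p ∈ PP a b N) : (N : ℝ) ^ a < p := by
  have h1 : (N : ℝ) ^ a < (⌊(N : ℝ) ^ a⌋₊ : ℝ) + 1 := Nat.lt_floor_add_one _
  have h2 : ((⌊(N : ℝ) ^ a⌋₊ : ℕ) : ℝ) + 1 ≤ p := by exact_mod_cast (PP_mem.1 h).1.1
  linarith

lemma PP_hi {a b : ℝ} {N p : ℕ} (h : p ∈ PP a b N) : (p : ℝ) ≤ (N : ℝ) ^ b := by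
  have h1 : ((⌊(N : ℝ) ^ b⌋₊ : ℕ) : ℝ) ≤ (N : ℝ) ^ b := Nat.floor_le (by positivity)
  have h2 : (p : ℝ) ≤ ((⌊(N : ℝ) ^ b⌋₊ : ℕ) : ℝ) := by exact_mod_cast (PP_mem.1 h).1.2
  linarith

/-- a prime lies in a cell -/
lemma locate {N p b : ℕ} (hp : p.Prime) (h1 : ZZ N < p) (hb : 40 ≤ b)
    (h2 : (p : ℝ) ≤ (N : ℝ) ^ ((b : ℝ) / 200)) : ∃ u ∈ Ico 40 b, p ∈ PU u N := by
  induction b, hb using Nat.le_induction with
  | base =>
    exfalso
    have h3 : p ≤ ZZ N := by
      unfold ZZ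
      apply Nat.le_floor
      have e : (((40 : ℕ) : ℝ) / 200 : ℝ) = 1 / 5 := by norm_num
      rwa [e] at h2
    omega
  | succ b hb ih =>
    by_cases h3 : (p : ℝ) ≤ (N : ℝ) ^ ((b : ℝ) / 200)
    · obtain ⟨u, hu, hpu⟩ := ih h3
      refine ⟨u, ?_, hpu⟩
      rw [mem_Ico] at hu ⊢
      omega
    · refine ⟨b, mem_Ico.2 ⟨hb, by omega⟩, ?_⟩
      unfold PU
      rw [PP_mem]
      refine ⟨⟨?_, ?_⟩, hp⟩
      · by_contra h4
        rw [not_lt] at h4
        apply h3
        have h5 : (p : ℝ) ≤ ((⌊(N : ℝ) ^ ((b : ℝ) / 200)⌋₊ : ℕ) : ℝ) := by exact_mod_cast h4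
        exact h5.trans (Nat.floor_le (by positivity))
      · apply Nat.le_floor
        push_cast at h2
        exact h2

/-- cells are ordered -/
lemma cell_le {N p q u v : ℕ} (hN : 1 ≤ N) (hp : p ∈ PU u N) (hq : q ∈ PU v N) (h : p ≤ q) : u ≤ v := by
  by_contra hcon
  rw [not_le] at hcon
  have h1 := PP_lo hp
  have h2 := PP_hi hq
  have h3 : (N : ℝ) ^ (((v : ℝ) + 1) / 200) ≤ (N : ℝ) ^ ((u : ℝ) / 200) := by
    apply Real.rpow_le_rpow_of_exponent_le (by exact_mod_cast hN)
    have : (v : ℝ) + 1 ≤ u := by exact_mod_cast hcon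
    linarith
  have h4 : (p : ℝ) ≤ q := by exact_mod_cast h
  linarith

/-- a summand -/
lemma term_le {L n m k K D : ℝ} (hL : 0 < L) (hm : 0 < m) (hD : 0 < D) (hk0 : 0 ≤ K) (hkK : k ≤ K)
    (hlog : D * L ≤ Real.log (n / m)) : k * (L * (1 / (m * Real.log (n / m)))) ≤ K / D * (1 / m) := by
  have h1 : 0 < Real.log (n / m) := lt_of_lt_of_le (by positivity) hlog
  have h2 : L * (1 / (m * Real.log (n / m))) ≤ 1 / D * (1 / m) := by
    rw [mul_one_div, one_div_mul_one_div, div_le_div_iff₀ (by positivity) (by positivity)]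
    have := mul_le_mul_of_nonneg_left hlog hm.le
    nlinarith
  calc k * (L * (1 / (m * Real.log (n / m)))) ≤ K * (L * (1 / (m * Real.log (n / m)))) :=
        mul_le_mul_of_nonneg_right hkK (by positivity)
    _ ≤ K * (1 / D * (1 / m)) := mul_le_mul_of_nonneg_left h2 hk0
    _ = _ := by ring

lemma om_mul_le {N : ℕ} {p q : ℕ} (hp : p.Prime) (hq : q.Prime) : om N (p * q) ≤ 2 := by
  unfold om
  refine (card_filter_le _ _).trans ?_
  rw [Nat.primeFactors_mul hp.ne_zero hq.ne_zero, hp.primeFactors, hq.primeFactors]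
  exact (card_union_le _ _).trans (by simp)

lemma om_mul3_le {N : ℕ} {p q r : ℕ} (hp : p.Prime) (hq : q.Prime) (hr : r.Prime) : om N (p * q * r) ≤ 3 := by
  unfold om
  refine (card_filter_le _ _).trans ?_
  rw [Nat.primeFactors_mul (Nat.mul_ne_zero hp.ne_zero hq.ne_zero) hr.ne_zero,
    Nat.primeFactors_mul hp.ne_zero hq.ne_zero, hp.primeFactors, hq.primeFactors, hr.primeFactors]
  refine (card_union_le _ _).trans ?_
  have := card_union_le ({p} : Finset ℕ) {q}
  simp only [card_singleton] at this ⊢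
  omega

lemma om_prime_le {N : ℕ} {p : ℕ} (hp : p.Prime) : om N p ≤ 1 := by
  unfold om
  refine (card_filter_le _ _).trans ?_
  rw [hp.primeFactors, card_singleton]

lemma c3_nonneg (u v : ℕ) : 0 ≤ c3 u v := by
  unfold c3
  split_ifs
  · exact le_rfl
  · apply div_nonneg (by norm_num)
    exact le_max_of_le_right (by positivity)
  · apply div_nonneg (by norm_num)
    exact le_max_of_le_right (by positivity)

lemma c4_nonneg (u v w : ℕ) : 0 ≤ c4 u v w := by
  unfold c4
  split_ifs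
  · exact le_rfl
  · apply div_nonneg (by norm_num)
    exact le_max_of_le_right (by positivity)

lemma lQ_nonneg (u : ℕ) : 0 ≤ lQ u := by
  unfold lQ
  positivity

theorem wd (B : ℕ) : ∃ N₀ : ℕ, ∀ N : ℕ, N₀ ≤ N → ∀ n : ℕ, n ≤ N → (N : ℝ) / Real.log N ^ B ≤ n →
    14 / 100 ≤ Wm N n := by
  classical
  obtain ⟨N₀, hN₀⟩ := eventually_atTop.1 (ev_all B)
  refine ⟨N₀, fun N hN n hn hnN => ?_⟩
  obtain ⟨hB, hL1, hBL, hS, hS2⟩ := hN₀ N hN
  have hL0 : 0 < Real.log N := hB.L
  have hN1 : 1 ≤ N := by have := hB.two; omega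
  have hN0 : (0 : ℝ) < N := by exact_mod_cast hN1
  have hNr1 : (1 : ℝ) ≤ N := by exact_mod_cast hN1
  have hn0' : (0 : ℝ) < n := lt_of_lt_of_le (by positivity) hnN
  have hn0 : 0 < n := by exact_mod_cast hn0'
  obtain ⟨L, hLd⟩ : ∃ L, L = Real.log (N : ℝ) := ⟨_, rfl⟩
  have hln : (1 - 1 / 5000) * L ≤ Real.log n := by
    have h1 := Real.log_le_log (by positivity) hnN
    rw [Real.log_div hN0.ne' (by positivity), Real.log_pow] at h1
    rw [hLd]
    linarith
  have hln2 : Real.log n ≤ L := by rw [hLd]; exact Real.log_le_log hn0' (by exact_mod_cast hn)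
  have hpowlog : ∀ a : ℝ, Real.log ((N : ℝ) ^ a) = a * L := fun a => by rw [Real.log_rpow hN0, hLd]
  have hnpow : ∀ a : ℝ, a < 1 - 1 / 5000 → (N : ℝ) ^ a < n := by
    intro a ha
    rw [← Real.log_lt_log_iff (by positivity) hn0', hpowlog]
    have : a * L < (1 - 1 / 5000) * L := mul_lt_mul_of_pos_right ha (by rw [hLd]; exact hL0)
    linarith
  rw [← hLd] at hL0 hL1
  have hln0 : 0 < Real.log n := by nlinarith
  have hsq := sqrt_half (N := N)
  -- the function to be estimated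
  obtain ⟨F, hF⟩ : ∃ F : ℕ → ℝ, F = fun m => -(kap N n m) * (L * (1 / ((m : ℝ) * Real.log ((n : ℝ) / m)))) := ⟨_, rfl⟩
  have hcast : ∀ m : ℕ, m ∈ mm N n → 0 ≤ L * (1 / ((m : ℝ) * Real.log ((n : ℝ) / m))) := by
    intro m hm
    have := (term_bd hB hm).1
    rw [hLd]
    exact this
  -- the cover
  obtain ⟨T2, hT2⟩ : ∃ T2, T2 = PP (4995 / 10000) (1 / 2) N := ⟨_, rfl⟩
  obtain ⟨T3, hT3⟩ : ∃ T3 : Finset (Σ _ : ℕ, Σ _ : ℕ, ℕ × ℕ), T3 = (Ico 40 80).sigma (fun u => (Ico u 80).sigma (fun v => PU u N ×ˢ PU v N)) :=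
    ⟨_, rfl⟩
  obtain ⟨T4, hT4⟩ : ∃ T4 : Finset (Σ _ : ℕ, Σ _ : ℕ, Σ _ : ℕ, ℕ × (ℕ × ℕ)), T4 = (Ico 40 60).sigma (fun u => (Ico u 60).sigma (fun v =>
    (Ico v 60).sigma (fun w => PU u N ×ˢ (PU v N ×ˢ PU w N)))) := ⟨_, rfl⟩
  obtain ⟨G2, hG2⟩ : ∃ G2 : ℕ → ℝ, G2 = fun p : ℕ => 1 / (4998 / 10000 : ℝ) * (1 / (p : ℝ)) := ⟨_, rfl⟩
  obtain ⟨G3, hG3⟩ : ∃ G3 : (Σ _ : ℕ, Σ _ : ℕ, ℕ × ℕ) → ℝ, G3 = fun t => (c3 t.1 t.2.1 : ℝ) * ((1 : ℝ) / t.2.2.1 * (1 / t.2.2.2)) :=
    ⟨_, rfl⟩
  obtain ⟨G4, hG4⟩ : ∃ G4 : (Σ _ : ℕ, Σ _ : ℕ, Σ _ : ℕ, ℕ × (ℕ × ℕ)) → ℝ, G4 = fun t => (c4 t.1 t.2.1 t.2.2.1 : ℝ) *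
    ((1 : ℝ) / t.2.2.2.1 * (1 / t.2.2.2.2.1 * (1 / t.2.2.2.2.2))) := ⟨_, rfl⟩
  have hcov := sum_cover (((mm N n).erase 1).filter (fun m => 0 < F m)) (T2.disjSum (T3.disjSum T4))
    (Sum.elim id (Sum.elim (fun t => t.2.2.1 * t.2.2.2) (fun t => t.2.2.2.1 * t.2.2.2.2.1 * t.2.2.2.2.2))) F
    (Sum.elim G2 (Sum.elim G3 G4)) (by
      rintro (t | t | t) _
      · simp only [Sum.elim_inl, hG2]
        positivity
      · simp only [Sum.elim_inr, Sum.elim_inl, hG3]
        have : (0 : ℝ) ≤ (c3 t.1 t.2.1 : ℝ) := by exact_mod_cast c3_nonneg _ _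
        positivity
      · simp only [Sum.elim_inr, hG4]
        have : (0 : ℝ) ≤ (c4 t.1 t.2.1 t.2.2.1 : ℝ) := by exact_mod_cast c4_nonneg _ _ _
        positivity) (by
      intro m hm
      rw [mem_filter, mem_erase] at hm
      obtain ⟨⟨hm1, hmm⟩, hpos⟩ := hm
      have hmn0 : (0 : ℝ) < m := by exact_mod_cast (mem_mm.1 hmm).1.1
      have hge := hcast m hmm
      have hkneg : 0 < -(kap N n m) := by
        by_contra hc
        rw [not_lt] at hc
        have := mul_nonpos_of_nonpos_of_nonneg hc hge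
        rw [hF] at hpos
        simp only at hpos
        linarith
      rcases shape hB hn hmm with h | ⟨p, e1, h2, h3, h4⟩ | ⟨p, q, e1, h2, h3, h4, h5, h6, h7⟩ |
        ⟨p, q, r, e1, h2, h3, h4, h5, h6, h7, h8, h9, h10⟩
      · exact absurd h hm1
      · -- one prime
        subst e1
        have hom := om_prime_le (N := N) h2
        have hom' : (om N m : ℝ) ≤ 1 := by exact_mod_cast hom
        have hind : n ≤ m * Nat.sqrt N := by
          by_contra hc
          unfold kap at hkneg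
          rw [if_neg hc] at hkneg
          linarith
        have hk1 : -(kap N n m) ≤ 1 := by
          unfold kap
          rw [if_pos hind]
          linarith
        have hmhi : (m : ℝ) ≤ (N : ℝ) ^ (1 / 2 : ℝ) := by
          rw [← Real.sqrt_eq_rpow]
          apply Real.le_sqrt_of_sq_le
          have : ((m * m : ℕ) : ℝ) < N := by exact_mod_cast lt_of_lt_of_le h4 hn
          push_cast at this
          nlinarith
        have hmlo : (N : ℝ) ^ (4995 / 10000 : ℝ) < m := by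
          by_contra hc
          rw [not_lt] at hc
          have e1 : (n : ℝ) ≤ (N : ℝ) ^ (9995 / 10000 : ℝ) := by
            calc (n : ℝ) ≤ (m : ℝ) * Nat.sqrt N := by exact_mod_cast hind
              _ ≤ (N : ℝ) ^ (4995 / 10000 : ℝ) * (N : ℝ) ^ (1 / 2 : ℝ) := by gcongr
              _ = (N : ℝ) ^ (9995 / 10000 : ℝ) := by
                  rw [← Real.rpow_add hN0]
                  norm_num
          have e2 := hnpow (9995 / 10000) (by norm_num)
          linarith
        refine ⟨Sum.inl m, ?_, rfl, ?_⟩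
        · rw [inl_mem_disjSum, hT2, PP_mem]
          refine ⟨⟨?_, Nat.le_floor hmhi⟩, h2⟩
          rw [Nat.floor_lt (by positivity)]
          exact hmlo
        · simp only [Sum.elim_inl, hF, hG2]
          apply term_le hL0 hmn0 (by norm_num) (by norm_num) hk1
          rw [Real.log_div hn0'.ne' hmn0.ne']
          have e1 := Real.log_le_log hmn0 hmhi
          rw [hpowlog] at e1
          linarith
      · -- two primes
        have hp0 : (0 : ℝ) < p := by exact_mod_cast h2.pos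
        have hq0 : (0 : ℝ) < q := by exact_mod_cast h3.pos
        have hlow : (N : ℝ) ^ (1 / 5 : ℝ) < p := by
          have k2 : (N : ℝ) ^ (1 / 5 : ℝ) < ((ZZ N : ℕ) : ℝ) + 1 := Nat.lt_floor_add_one _
          have k3 : ((ZZ N : ℕ) : ℝ) + 1 ≤ p := by exact_mod_cast h4
          linarith
        have hpqq : (p : ℝ) * q * q < N := by exact_mod_cast lt_of_lt_of_le h7 hn
        have hqhi : (q : ℝ) ≤ (N : ℝ) ^ (((80 : ℕ) : ℝ) / 200) := by
          by_contra hc
          rw [not_le] at hc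
          have k5 : 0 < (N : ℝ) ^ (((80 : ℕ) : ℝ) / 200) := Real.rpow_pos_of_pos hN0 _
          have k6 : (N : ℝ) ^ (1 / 5 : ℝ) * (N : ℝ) ^ (((80 : ℕ) : ℝ) / 200) * (N : ℝ) ^ (((80 : ℕ) : ℝ) / 200) = N := by
            rw [← Real.rpow_add hN0, ← Real.rpow_add hN0]
            norm_num
          have k7 : (N : ℝ) ^ (1 / 5 : ℝ) * (N : ℝ) ^ (((80 : ℕ) : ℝ) / 200) * (N : ℝ) ^ (((80 : ℕ) : ℝ) / 200) ≤
              p * q * q := by gcongr
          linarith
        have hphi : (p : ℝ) ≤ (N : ℝ) ^ (((80 : ℕ) : ℝ) / 200) := le_trans (by exact_mod_cast h6) hqhi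
        obtain ⟨u, hu, hpu⟩ := locate h2 h4 (by norm_num) hphi
        obtain ⟨v, hv, hqv⟩ := locate h3 h5 (by norm_num) hqhi
        have huv := cell_le hN1 hpu hqv h6
        rw [mem_Ico] at hu hv
        refine ⟨Sum.inr (Sum.inl ⟨u, ⟨v, (p, q)⟩⟩), ?_, ?_, ?_⟩
        · rw [inr_mem_disjSum, inl_mem_disjSum, hT3]
          simp only [mem_sigma, mem_product, mem_Ico]
          exact ⟨hu, ⟨huv, hv.2⟩, hpu, hqv⟩
        · simp only [Sum.elim_inr, Sum.elim_inl]
          exact e1.symm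
        · simp only [Sum.elim_inr, Sum.elim_inl, hF, hG3]
          have hplo := PP_lo hpu
          have hqlo := PP_lo hqv
          have hpH := PP_hi hpu
          have hqH := PP_hi hqv
          have hmreal : (m : ℝ) = p * q := by rw [e1]; push_cast; ring
          have hnot : ¬ 200 ≤ u + 2 * v := by
            intro hc
            have hcr : (200 : ℝ) ≤ u + 2 * v := by exact_mod_cast hc
            have k1 : (N : ℝ) ≤ (N : ℝ) ^ ((u : ℝ) / 200) * (N : ℝ) ^ ((v : ℝ) / 200) * (N : ℝ) ^ ((v : ℝ) / 200) := by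
              rw [← Real.rpow_add hN0, ← Real.rpow_add hN0]
              calc (N : ℝ) = (N : ℝ) ^ (1 : ℝ) := (Real.rpow_one _).symm
                _ ≤ _ := Real.rpow_le_rpow_of_exponent_le hNr1 (by linarith)
            have k2 : (N : ℝ) ^ ((u : ℝ) / 200) * (N : ℝ) ^ ((v : ℝ) / 200) * (N : ℝ) ^ ((v : ℝ) / 200) ≤ p * q * q := by
              gcongr
            linarith
          have hD1 : (1 - 1 / 5000 - ((u : ℝ) + v + 2) / 200) * L ≤ Real.log ((n : ℝ) / m) := by
            rw [hmreal, Real.log_div hn0'.ne' (by positivity), Real.log_mul hp0.ne' hq0.ne']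
            have k1 := Real.log_le_log hp0 hpH
            have k2 := Real.log_le_log hq0 hqH
            rw [hpowlog] at k1 k2
            linarith
          have hD2 : ((v : ℝ) / 200) * L ≤ Real.log ((n : ℝ) / m) := by
            have k1 := Real.log_le_log (by positivity) hqlo.le
            rw [hpowlog] at k1
            refine k1.trans (Real.log_le_log hq0 ?_)
            rw [le_div_iff₀ hmn0, hmreal]
            have : ((p * q * q : ℕ) : ℝ) ≤ n := by exact_mod_cast h7.le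
            push_cast at this
            linarith
          have hDmax : (max (1 - 1 / 5000 - ((u : ℝ) + v + 2) / 200) ((v : ℝ) / 200)) * L ≤ Real.log ((n : ℝ) / m) := by
            rcases max_cases (1 - 1 / 5000 - ((u : ℝ) + v + 2) / 200) ((v : ℝ) / 200) with ⟨k, -⟩ | ⟨k, -⟩
            · rw [k]; exact hD1
            · rw [k]; exact hD2
          have hv0 : (0 : ℝ) < (v : ℝ) / 200 := by
            have : (0 : ℝ) < v := by exact_mod_cast (by omega : 0 < v)
            positivity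
          have hom := om_mul_le (N := N) h2 h3
          rw [← e1] at hom
          have hom' : (om N m : ℝ) ≤ 2 := by exact_mod_cast hom
          have hc3 : (c3 u v : ℝ) = (if u + v + 2 ≤ 99 then (1 : ℝ) else 2) /
              max (1 - 1 / 5000 - ((u : ℝ) + v + 2) / 200) ((v : ℝ) / 200) := by
            unfold c3
            rw [if_neg hnot]
            split_ifs <;> push_cast <;> rfl
          have hk : -(kap N n m) ≤ if u + v + 2 ≤ 99 then (1 : ℝ) else 2 := by
            unfold kap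
            by_cases hc : u + v + 2 ≤ 99
            · have hcr : (u : ℝ) + v + 2 ≤ 99 := by exact_mod_cast hc
              rw [if_pos hc, if_neg]
              · linarith
              · intro hind
                have k1 : (n : ℝ) ≤ (N : ℝ) ^ (199 / 200 : ℝ) := by
                  calc (n : ℝ) ≤ (m : ℝ) * Nat.sqrt N := by exact_mod_cast hind
                    _ ≤ ((N : ℝ) ^ (((u : ℝ) + 1) / 200) * (N : ℝ) ^ (((v : ℝ) + 1) / 200)) * (N : ℝ) ^ (1 / 2 : ℝ) := by
                        rw [hmreal]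
                        gcongr
                    _ = (N : ℝ) ^ (((u : ℝ) + 1) / 200 + ((v : ℝ) + 1) / 200 + 1 / 2) := by
                        rw [← Real.rpow_add hN0, ← Real.rpow_add hN0]
                    _ ≤ (N : ℝ) ^ (199 / 200 : ℝ) := Real.rpow_le_rpow_of_exponent_le hNr1 (by linarith)
                have k2 := hnpow (199 / 200) (by norm_num)
                linarith
            · rw [if_neg hc]
              split_ifs <;> linarith
          have hfin := term_le (n := (n : ℝ)) hL0 hmn0 (lt_of_lt_of_le hv0 (le_max_right (1 - 1 / 5000 - ((u : ℝ) + v + 2) / 200) _))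
            (by split_ifs <;> norm_num) hk hDmax
          rw [← hc3] at hfin
          refine hfin.trans (le_of_eq ?_)
          rw [hmreal, one_div_mul_one_div]
      · -- three primes
        have hp0 : (0 : ℝ) < p := by exact_mod_cast h2.pos
        have hq0 : (0 : ℝ) < q := by exact_mod_cast h3.pos
        have hr0 : (0 : ℝ) < r := by exact_mod_cast h4.pos
        have hlow : ∀ x : ℕ, ZZ N < x → (N : ℝ) ^ (1 / 5 : ℝ) < x := by
          intro x hx
          have k2 : (N : ℝ) ^ (1 / 5 : ℝ) < ((ZZ N : ℕ) : ℝ) + 1 := Nat.lt_floor_add_one _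
          have k3 : ((ZZ N : ℕ) : ℝ) + 1 ≤ x := by exact_mod_cast hx
          linarith
        have hlp := hlow p h5
        have hlq := hlow q h6
        have hpqrr : (p : ℝ) * q * r * r < N := by exact_mod_cast lt_of_lt_of_le h10 hn
        have hrhi : (r : ℝ) ≤ (N : ℝ) ^ (((60 : ℕ) : ℝ) / 200) := by
          by_contra hc
          rw [not_le] at hc
          have k5 : 0 < (N : ℝ) ^ (((60 : ℕ) : ℝ) / 200) := Real.rpow_pos_of_pos hN0 _
          have k6 : (N : ℝ) ^ (1 / 5 : ℝ) * (N : ℝ) ^ (1 / 5 : ℝ) * (N : ℝ) ^ (((60 : ℕ) : ℝ) / 200) *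
              (N : ℝ) ^ (((60 : ℕ) : ℝ) / 200) = N := by
            rw [← Real.rpow_add hN0, ← Real.rpow_add hN0, ← Real.rpow_add hN0]
            norm_num
          have k7 : (N : ℝ) ^ (1 / 5 : ℝ) * (N : ℝ) ^ (1 / 5 : ℝ) * (N : ℝ) ^ (((60 : ℕ) : ℝ) / 200) *
              (N : ℝ) ^ (((60 : ℕ) : ℝ) / 200) ≤ p * q * r * r := by gcongr
          linarith
        have hqhi : (q : ℝ) ≤ (N : ℝ) ^ (((60 : ℕ) : ℝ) / 200) := le_trans (by exact_mod_cast h9) hrhi
        have hphi : (p : ℝ) ≤ (N : ℝ) ^ (((60 : ℕ) : ℝ) / 200) := le_trans (by exact_mod_cast h8) hqhi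
        obtain ⟨u, hu, hpu⟩ := locate h2 h5 (by norm_num) hphi
        obtain ⟨v, hv, hqv⟩ := locate h3 h6 (by norm_num) hqhi
        obtain ⟨w, hw, hrw⟩ := locate h4 h7 (by norm_num) hrhi
        have huv := cell_le hN1 hpu hqv h8
        have hvw := cell_le hN1 hqv hrw h9
        rw [mem_Ico] at hu hv hw
        refine ⟨Sum.inr (Sum.inr ⟨u, ⟨v, ⟨w, (p, (q, r))⟩⟩⟩), ?_, ?_, ?_⟩
        · rw [inr_mem_disjSum, inr_mem_disjSum, hT4]
          simp only [mem_sigma, mem_product, mem_Ico]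
          exact ⟨hu, ⟨huv, hv.2⟩, ⟨hvw, hw.2⟩, hpu, hqv, hrw⟩
        · simp only [Sum.elim_inr]
          exact e1.symm
        · simp only [Sum.elim_inr, hF, hG4]
          have hplo := PP_lo hpu
          have hqlo := PP_lo hqv
          have hrlo := PP_lo hrw
          have hpH := PP_hi hpu
          have hqH := PP_hi hqv
          have hrH := PP_hi hrw
          have hmreal : (m : ℝ) = p * q * r := by rw [e1]; push_cast; ring
          have hnot : ¬ 200 ≤ u + v + 2 * w := by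
            intro hc
            have hcr : (200 : ℝ) ≤ u + v + 2 * w := by exact_mod_cast hc
            have k1 : (N : ℝ) ≤ (N : ℝ) ^ ((u : ℝ) / 200) * (N : ℝ) ^ ((v : ℝ) / 200) * (N : ℝ) ^ ((w : ℝ) / 200) *
                (N : ℝ) ^ ((w : ℝ) / 200) := by
              rw [← Real.rpow_add hN0, ← Real.rpow_add hN0, ← Real.rpow_add hN0]
              calc (N : ℝ) = (N : ℝ) ^ (1 : ℝ) := (Real.rpow_one _).symm
                _ ≤ _ := Real.rpow_le_rpow_of_exponent_le hNr1 (by linarith)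
            have k2 : (N : ℝ) ^ ((u : ℝ) / 200) * (N : ℝ) ^ ((v : ℝ) / 200) * (N : ℝ) ^ ((w : ℝ) / 200) *
                (N : ℝ) ^ ((w : ℝ) / 200) ≤ p * q * r * r := by
              gcongr
            linarith
          have hD1 : (1 - 1 / 5000 - ((u : ℝ) + v + w + 3) / 200) * L ≤ Real.log ((n : ℝ) / m) := by
            rw [hmreal, Real.log_div hn0'.ne' (by positivity), Real.log_mul (by positivity) hr0.ne',
              Real.log_mul hp0.ne' hq0.ne']
            have k1 := Real.log_le_log hp0 hpH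
            have k2 := Real.log_le_log hq0 hqH
            have k3 := Real.log_le_log hr0 hrH
            rw [hpowlog] at k1 k2 k3
            linarith
          have hD2 : ((w : ℝ) / 200) * L ≤ Real.log ((n : ℝ) / m) := by
            have k1 := Real.log_le_log (by positivity) hrlo.le
            rw [hpowlog] at k1
            refine k1.trans (Real.log_le_log hr0 ?_)
            rw [le_div_iff₀ hmn0, hmreal]
            have : ((p * q * r * r : ℕ) : ℝ) ≤ n := by exact_mod_cast h10.le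
            push_cast at this
            linarith
          have hDmax : (max (1 - 1 / 5000 - ((u : ℝ) + v + w + 3) / 200) ((w : ℝ) / 200)) * L ≤
              Real.log ((n : ℝ) / m) := by
            rcases max_cases (1 - 1 / 5000 - ((u : ℝ) + v + w + 3) / 200) ((w : ℝ) / 200) with ⟨k, -⟩ | ⟨k, -⟩
            · rw [k]; exact hD1
            · rw [k]; exact hD2
          have hw0 : (0 : ℝ) < (w : ℝ) / 200 := by
            have : (0 : ℝ) < w := by exact_mod_cast (by omega : 0 < w)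
            positivity
          have hom := om_mul3_le (N := N) h2 h3 h4
          rw [← e1] at hom
          have hom' : (om N m : ℝ) ≤ 3 := by exact_mod_cast hom
          have hc4 : (c4 u v w : ℝ) = 3 / max (1 - 1 / 5000 - ((u : ℝ) + v + w + 3) / 200) ((w : ℝ) / 200) := by
            unfold c4
            rw [if_neg hnot]
            push_cast
            norm_num
          have hk : -(kap N n m) ≤ 3 := by
            unfold kap
            split_ifs <;> linarith
          have hfin := term_le (n := (n : ℝ)) hL0 hmn0 (lt_of_lt_of_le hw0 (le_max_right (1 - 1 / 5000 - ((u : ℝ) + v + w + 3) / 200) _))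
            (by norm_num) hk hDmax
          rw [← hc4] at hfin
          refine hfin.trans (le_of_eq ?_)
          rw [hmreal, one_div_mul_one_div, one_div_mul_one_div, mul_assoc])
  -- the sums over the cover
  have hsum2 : ∑ t ∈ T2, G2 t ≤ 25 / 10000 := by
    rw [hG2, hT2, ← mul_sum]
    have : ∑ i ∈ PP (4995 / 10000) (1 / 2) N, (1 : ℝ) / i = SP (4995 / 10000) (1 / 2) N := rfl
    rw [this]
    have h0 := SP_nonneg (4995 / 10000) (1 / 2) N
    norm_num at hS2 h0 ⊢
    linarith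
  have hsum3 : ∑ t ∈ T3, G3 t ≤ 791 / 1000 := by
    rw [hT3, hG3, sum_sigma]
    simp only [sum_sigma, sum_product]
    have e : ∀ u v : ℕ, ∑ x ∈ PU u N, ∑ y ∈ PU v N, (c3 u v : ℝ) * ((1 : ℝ) / x * (1 / y)) =
        (c3 u v : ℝ) * (SU u N * SU v N) := by
      intro u v
      unfold SU SP PU
      rw [sum_mul_sum, mul_sum]
      refine sum_congr rfl fun x _ => ?_
      rw [mul_sum]
    simp only [e]
    have h0 : (((∑ u ∈ Ico 40 80, ∑ v ∈ Ico u 80, c3 u v * (lQ u * lQ v) : ℚ)) : ℝ) ≤ ((791 / 1000 : ℚ) : ℝ) :=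
      Rat.cast_le.2 num3
    have h1 : ∑ u ∈ Ico 40 80, ∑ v ∈ Ico u 80, (c3 u v : ℝ) * ((lQ u : ℝ) * (lQ v : ℝ)) ≤ 791 / 1000 := by
      refine le_trans (le_of_eq ?_) (h0.trans (le_of_eq ?_))
      · push_cast
        rfl
      · push_cast
        rfl
    refine le_trans (sum_le_sum fun u hu => sum_le_sum fun v hv => ?_) h1
    rw [mem_Ico] at hu hv
    have k1 := hS u (mem_Ico.2 hu)
    have k2 := hS v (mem_Ico.2 ⟨by omega, hv.2⟩)
    have k3 : (0 : ℝ) ≤ (c3 u v : ℝ) := by exact_mod_cast c3_nonneg _ _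
    have k4 : (0 : ℝ) ≤ (lQ u : ℝ) := by exact_mod_cast lQ_nonneg _
    exact mul_le_mul_of_nonneg_left (mul_le_mul k1 k2 (SU_nonneg _ _) k4) k3
  have hsum4 : ∑ t ∈ T4, G4 t ≤ 62 / 1000 := by
    rw [hT4, hG4, sum_sigma]
    simp only [sum_sigma, sum_product]
    have e : ∀ u v w : ℕ, ∑ x ∈ PU u N, ∑ y ∈ PU v N, ∑ z ∈ PU w N, (c4 u v w : ℝ) * ((1 : ℝ) / x * (1 / y * (1 / z))) =
        (c4 u v w : ℝ) * (SU u N * SU v N * SU w N) := by
      intro u v w
      unfold SU SP PU
      rw [sum_mul_sum, sum_mul, mul_sum]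
      refine sum_congr rfl fun x _ => ?_
      rw [sum_mul, mul_sum]
      refine sum_congr rfl fun y _ => ?_
      rw [mul_sum, mul_sum]
      refine sum_congr rfl fun z _ => ?_
      ring
    simp only [e]
    have h0 : (((∑ u ∈ Ico 40 60, ∑ v ∈ Ico u 60, ∑ w ∈ Ico v 60, c4 u v w * (lQ u * lQ v * lQ w) : ℚ)) : ℝ) ≤
        ((62 / 1000 : ℚ) : ℝ) := Rat.cast_le.2 num4
    have h1 : ∑ u ∈ Ico 40 60, ∑ v ∈ Ico u 60, ∑ w ∈ Ico v 60, (c4 u v w : ℝ) * ((lQ u : ℝ) * (lQ v : ℝ) * (lQ w : ℝ)) ≤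
        62 / 1000 := by
      refine le_trans (le_of_eq ?_) (h0.trans (le_of_eq ?_))
      · push_cast
        rfl
      · push_cast
        rfl
    refine le_trans (sum_le_sum fun u hu => sum_le_sum fun v hv => sum_le_sum fun w hw => ?_) h1
    rw [mem_Ico] at hu hv hw
    have k1 := hS u (mem_Ico.2 ⟨hu.1, by omega⟩)
    have k2 := hS v (mem_Ico.2 ⟨by omega, by omega⟩)
    have k2' := hS w (mem_Ico.2 ⟨by omega, by omega⟩)
    have k3 : (0 : ℝ) ≤ (c4 u v w : ℝ) := by exact_mod_cast c4_nonneg _ _ _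
    have k4 : (0 : ℝ) ≤ (lQ u : ℝ) := by exact_mod_cast lQ_nonneg _
    have k5 : (0 : ℝ) ≤ (lQ v : ℝ) := by exact_mod_cast lQ_nonneg _
    refine mul_le_mul_of_nonneg_left (mul_le_mul (mul_le_mul k1 k2 (SU_nonneg _ _) k4) k2' (SU_nonneg _ _) ?_) k3
    exact mul_nonneg k4 k5
  rw [sum_disjSum, sum_disjSum] at hcov
  simp only [Sum.elim_inl, Sum.elim_inr] at hcov
  -- all summands
  have hall : ∑ m ∈ (mm N n).erase 1, F m ≤ ∑ m ∈ ((mm N n).erase 1).filter (fun m => 0 < F m), F m := by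
    rw [sum_filter]
    refine sum_le_sum fun m _ => ?_
    split_ifs with h
    · exact le_rfl
    · exact not_lt.1 h
  have hZn : ZZ N < n := by
    have h1 := hnpow (1 / 5) (by norm_num)
    unfold ZZ
    rw [Nat.floor_lt (by positivity)]
    exact h1
  have hsn : ¬ n ≤ 1 * Nat.sqrt N := by
    rw [one_mul, not_le]
    have h1 := hnpow (1 / 2) (by norm_num)
    have : (Nat.sqrt N : ℝ) < n := lt_of_le_of_lt hsq h1
    exact_mod_cast this
  have h1m : 1 ∈ mm N n := by
    rw [mem_mm]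
    refine ⟨⟨le_rfl, hn0⟩, by simp, ?_⟩
    unfold MM
    simp only [Nat.primeFactors_one, sup_empty, bot_eq_zero', zero_le, sup_of_le_right, one_mul]
    exact hZn
  have hkap1 : kap N n 1 = 1 := by
    unfold kap om
    rw [if_neg hsn]
    simp
  have hW : Wm N n = L * gg n 1 - ∑ m ∈ (mm N n).erase 1, F m := by
    unfold Wm
    rw [← add_sum_erase _ _ h1m, hkap1, one_mul, mul_add, ← hLd, mul_sum, hF, sub_eq_add_neg, ← sum_neg_distrib]
    congr 1
    refine sum_congr rfl fun m _ => ?_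
    unfold gg
    ring
  have hg1 : 1 ≤ L * gg n 1 := by
    unfold gg
    rw [Nat.cast_one, one_mul, div_one, mul_one_div, le_div_iff₀ hln0]
    linarith
  rw [hW]
  linarith

end Pool.Agent.T6.H3.FF
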