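import Pool.Agent.T6.H3.FF.Err
import Pool.Agent.T6.H3.FF.Wt2
import Pool.Agent.R460.GS.Fin

set_option autoImplicit false

/-! The lower bound in a window, in terms of the error terms. -/

namespace Pool.Agent.T6.H3.FF

open Finset
open Pool.Agent.R460.GS (la la_nn vm_le cv cv_left real_sum sum_window abelW reflect_sum win_main' x_sq)
open Pool.Agent.H373R2.T7 (lamz Vz pz lamI lamzI Vz_pos)
open Pool.Agent.Y883.T3 (lsh)
open Pool.Agent.Y883.GJ
open Pool.Agent.W93.PG (wn cnt lam_sub lamz_le lamz_nn)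
open Pool.Agent.H560R3.GB (sing)
open Pool.Agent.Y614.GJ.Core (ev_log)

/-- the difference -/
noncomputable def gR (N z r n : ℕ) : ℝ := gm N n - Wm N n * lsh z r n

lemma fm_eq (N z r n : ℕ) : fm N z r n = ((gR N z r n : ℝ) : ℂ) := by
  unfold fm gR GM HM
  push_cast
  ring

/-- the minorant -/
lemma gm_le {N m : ℕ} (hm : 2 ≤ m) (hmN : m ≤ N) (hl : 999 / 1000 * Real.log N ≤ Real.log m) :
    999 / 1000 * gm N m ≤ la m := by
  have hL0 : 0 ≤ Real.log N := Real.log_natCast_nonneg _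
  unfold gm
  by_cases h : ∀ p ∈ m.primeFactors, ZZ N < p
  swap
  · rw [if_neg h, mul_zero]
    exact la_nn m
  rw [if_pos h]
  by_cases hp : m.Prime
  · have h1 : la m = Real.log m := ArithmeticFunction.vonMangoldt_apply_prime hp
    rw [h1]
    refine le_trans ?_ hl
    apply mul_le_mul_of_nonneg_left _ (by norm_num)
    have h2 : (0 : ℝ) ≤ om N m := Nat.cast_nonneg _
    nlinarith
  · have h1 : 1 ≤ om N m := by
      unfold om
      rw [Nat.one_le_iff_ne_zero, ← Nat.pos_iff_ne_zero, card_pos]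
      refine ⟨m.minFac, ?_⟩
      rw [mem_filter, Nat.mem_primeFactors]
      refine ⟨⟨Nat.minFac_prime (by omega), Nat.minFac_dvd m, by omega⟩, ?_⟩
      rw [Nat.le_sqrt]
      have h2 := Nat.minFac_sq_le_self (n := m) (by omega) hp
      rw [sq] at h2
      omega
    have h2 : (1 : ℝ) ≤ om N m := by exact_mod_cast h1
    have h3 : Real.log N * (1 - (om N m : ℝ)) ≤ 0 := mul_nonpos_of_nonneg_of_nonpos hL0 (by linarith)
    have h4 := la_nn m
    linarith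

/-- few members of a window are near the end -/
lemma few_small {n y₁ y₂ : ℕ} {X : ℝ} (hX : 0 ≤ X) (h2 : y₂ < n) :
    (((Ioc y₁ y₂).filter (fun b : ℕ => ((n - b : ℕ) : ℝ) < X)).card : ℝ) ≤ X + 1 := by
  have e0 : ((Ioc y₁ y₂).filter (fun b : ℕ => ((n - b : ℕ) : ℝ) < X)).card ≤ (Icc 1 ⌊X⌋₊).card := by
    refine card_le_card_of_injOn (fun b => n - b) ?_ ?_
    · intro b hb
      rw [mem_coe, mem_filter, mem_Ioc] at hb
      rw [mem_coe, mem_Icc]
      have h5 : 1 ≤ n - b := by omega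
      exact ⟨h5, Nat.le_floor hb.2.le⟩
    · intro a ha b hb hab
      rw [mem_coe, mem_filter, mem_Ioc] at ha hb
      simp only at hab
      omega
  rw [Nat.card_Icc, Nat.add_sub_cancel] at e0
  have e3 : ((⌊X⌋₊ : ℕ) : ℝ) ≤ X := Nat.floor_le hX
  have e4 : (((Ioc y₁ y₂).filter (fun b : ℕ => ((n - b : ℕ) : ℝ) < X)).card : ℝ) ≤ ((⌊X⌋₊ : ℕ) : ℝ) := by
    exact_mod_cast e0
  linarith

/-- the lower bound sieve -/
lemma wn_lower4 {N n y₁ y₂ : ℕ} {X : ℝ} (hX : 0 ≤ X) (h2 : y₂ < n) (hn : n ≤ N)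
    (hl : ∀ m : ℕ, m ≤ N → X ≤ m → 2 ≤ m ∧ 999 / 1000 * Real.log N ≤ Real.log m) :
    999 / 1000 * ∑ b ∈ Ioc y₁ y₂, la b * gm N (n - b) - 4 * Real.log N ^ 2 * (X + 1) ≤ wn n y₁ y₂ := by
  have h1 : ∑ b ∈ Ioc y₁ y₂, (999 / 1000 * (la b * gm N (n - b)) -
      (if ((n - b : ℕ) : ℝ) < X then 4 * Real.log N ^ 2 else 0)) ≤ wn n y₁ y₂ := by
    unfold wn
    refine sum_le_sum fun b hb => ?_
    rw [mem_Ioc] at hb
    rw [lam_sub n b (by omega)]
    have hb1 : b ∈ Icc 1 N := mem_Icc.2 ⟨by omega, by omega⟩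
    have hb2 : n - b ∈ Icc 1 N := mem_Icc.2 ⟨by omega, by omega⟩
    have k1 := la_nn b
    have k2 : la b ≤ Real.log N := vm_le hb1
    have k3 := la_nn (n - b)
    show 999 / 1000 * (la b * gm N (n - b)) - (if ((n - b : ℕ) : ℝ) < X then 4 * Real.log N ^ 2 else 0) ≤
      la b * la (n - b)
    split_ifs with hc
    · have k4 := gm_abs hb2
      have k5 : la b * gm N (n - b) ≤ 4 * Real.log N ^ 2 := by
        calc la b * gm N (n - b) ≤ la b * |gm N (n - b)| := mul_le_mul_of_nonneg_left (le_abs_self _) k1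
          _ ≤ Real.log N * (4 * Real.log N) := mul_le_mul k2 k4 (abs_nonneg _) (k1.trans k2)
          _ = _ := by ring
      have k6 := mul_nonneg k1 k3
      have k7 : 0 ≤ 4 * Real.log N ^ 2 := by positivity
      linarith
    · obtain ⟨l1, l2⟩ := hl (n - b) (mem_Icc.1 hb2).2 (not_lt.1 hc)
      have k4 := gm_le l1 (mem_Icc.1 hb2).2 l2
      have k5 := mul_le_mul_of_nonneg_left k4 k1
      linarith
  rw [sum_sub_distrib, ← mul_sum, ← sum_filter, sum_const, nsmul_eq_mul] at h1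
  have h3 := few_small (y₁ := y₁) hX h2
  have h4 : 0 ≤ 4 * Real.log N ^ 2 := by positivity
  have h5 := mul_le_mul_of_nonneg_right h3 h4
  linarith

/-- the error term up to `y` -/
lemma err_window4 {N n y z r : ℕ} (hy : y < n) (hn : n ≤ N) :
    |∑ b ∈ Icc 1 y, la b * gR N z r (n - b)| = ‖cv LA (fm N z r) y N n‖ := by
  rw [cv_left hy hn]
  exact real_sum (Icc 1 y) la (fun b => gR N z r (n - b)) LA (fun b => fm N z r (n - b)) (fun _ => rfl)
    (fun b => fm_eq _ _ _ _)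

/-- from the truncated model to the exact model -/
lemma swap_model4 {N n y₁ y₂ z r : ℕ} {c X₁ : ℝ} (hW : WS (Wm N) c N) (h2 : y₂ < n)
    (hn : n ≤ N) (h1 : ∑ n ∈ Icc 1 N, |lamz z n - lsh z r n| ≤ X₁) :
    |∑ b ∈ Ioc y₁ y₂, la b * (Wm N (n - b) * lsh z r (n - b)) -
      ∑ b ∈ Ioc y₁ y₂, la b * (Wm N (n - b) * lamz z (n - b))| ≤ c * Real.log N * X₁ := by
  have hc := hW.nn
  have hL0 : 0 ≤ Real.log N := Real.log_natCast_nonneg N
  obtain ⟨x, hx⟩ : ∃ x : ℕ → ℝ, x = fun n => |lamz z n - lsh z r n| := ⟨_, rfl⟩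
  have hpt : ∀ b ∈ Ioc y₁ y₂, |la b * (Wm N (n - b) * lsh z r (n - b)) -
      la b * (Wm N (n - b) * lamz z (n - b))| ≤ c * Real.log N * x (n - b) := by
    intro b hb
    rw [mem_Ioc] at hb
    have hbN : b ∈ Icc 1 N := mem_Icc.2 ⟨by omega, by omega⟩
    have k1 := la_nn b
    have k2 : la b ≤ Real.log N := vm_le hbN
    have k3 := hW.h1 (n - b) (by omega)
    have e1 : la b * (Wm N (n - b) * lsh z r (n - b)) - la b * (Wm N (n - b) * lamz z (n - b)) =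
      (la b * Wm N (n - b)) * (lsh z r (n - b) - lamz z (n - b)) := by ring
    rw [e1, abs_mul, hx]
    simp only
    rw [abs_sub_comm (lsh z r (n - b))]
    apply mul_le_mul_of_nonneg_right _ (abs_nonneg _)
    rw [abs_mul, abs_of_nonneg k1, mul_comm c]
    exact mul_le_mul k2 k3 (abs_nonneg _) hL0
  rw [← sum_sub_distrib]
  refine (abs_sum_le_sum_abs _ _).trans ((sum_le_sum hpt).trans ?_)
  rw [← mul_sum]
  apply mul_le_mul_of_nonneg_left _ (by positivity)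
  have hx0 : ∀ b, 0 ≤ x b := fun b => by rw [hx]; exact abs_nonneg _
  calc ∑ b ∈ Ioc y₁ y₂, x (n - b) ≤ ∑ b ∈ Icc 1 y₂, x (n - b) := by
        refine sum_le_sum_of_subset_of_nonneg (fun b hb => ?_) fun _ _ _ => hx0 _
        rw [mem_Ioc] at hb
        rw [mem_Icc]
        omega
    _ = ∑ b ∈ Ioc (n - y₂ - 1) (n - 1), x b := reflect_sum x h2
    _ ≤ ∑ b ∈ Icc 1 N, x b := by
        refine sum_le_sum_of_subset_of_nonneg (fun b hb => ?_) fun _ _ _ => hx0 _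
        rw [mem_Ioc] at hb
        rw [mem_Icc]
        omega
    _ ≤ X₁ := by rw [hx]; exact h1

/-- the main term with weights -/
lemma det_main4 {N n y₁ y₂ : ℕ} {W la lz : ℕ → ℝ} {c S ε : ℝ} (hW : WS W c N) (hn : n ≤ N) (h12 : y₁ ≤ y₂)
    (h2 : y₂ < n) (hm1 : ∀ y < n, |∑ b ∈ Icc 1 y, la b * lz (n - b) - S * y| ≤ ε) :
    |∑ b ∈ Ioc y₁ y₂, la b * (W (n - b) * lz (n - b)) - S * ∑ b ∈ Ioc y₁ y₂, W (n - b)| ≤ 4 * c * ε := by
  have hc := hW.nn
  have cst : ∀ m : ℕ, ∑ _i ∈ Icc 1 m, S = S * m := by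
    intro m
    rw [sum_const, Nat.card_Icc, nsmul_eq_mul, Nat.add_sub_cancel, mul_comm]
  have p1 : ∀ m ≤ y₂, |∑ i ∈ Icc 1 m, (la i * lz (n - i) - S)| ≤ ε := by
    intro m hm
    rw [sum_sub_distrib, cst]
    exact hm1 m (by omega)
  have q1 := abelW (fun i => la i * lz (n - i) - S) (fun i => W (n - i)) ε c c y₁ y₂ h12 p1
    (fun i hi => hW.h1 _ (by omega)) (hW.refl hn h2) hc
  have e : ∑ b ∈ Ioc y₁ y₂, la b * (W (n - b) * lz (n - b)) - S * ∑ b ∈ Ioc y₁ y₂, W (n - b) =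
      ∑ i ∈ Ioc y₁ y₂, W (n - i) * (la i * lz (n - i) - S) := by
    rw [mul_sum, ← sum_sub_distrib]
    refine sum_congr rfl fun b _ => ?_
    ring
  rw [e]
  refine q1.trans (le_of_eq ?_)
  ring

/-- the density of the main term -/
lemma dens_lower4 {N n y₁ y₂ : ℕ} {W : ℕ → ℝ} {c X : ℝ} (hW : WS W c N) (hn : n ≤ N) (h12 : y₁ ≤ y₂)
    (h2 : y₂ < n) (hX : 0 ≤ X) (hd : ∀ b : ℕ, b ≤ N → X ≤ b → 14 / 100 ≤ W b) :
    14 / 100 * ((y₂ : ℝ) - y₁) - (c + 1) * (X + 1) ≤ ∑ b ∈ Ioc y₁ y₂, W (n - b) := by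
  classical
  have hc := hW.nn
  have h1 : ∀ b ∈ Ioc y₁ y₂, 14 / 100 - (if ((n - b : ℕ) : ℝ) < X then (c + 1) else 0) ≤ W (n - b) := by
    intro b hb
    rw [mem_Ioc] at hb
    have k4 := (abs_le.1 (hW.h1 (n - b) (by omega))).1
    by_cases a2 : ((n - b : ℕ) : ℝ) < X
    · rw [if_pos a2]
      linarith
    · rw [if_neg a2]
      have := hd (n - b) (by omega) (not_lt.1 a2)
      linarith
  refine le_trans ?_ (sum_le_sum h1)
  rw [sum_sub_distrib, sum_const, Nat.card_Ioc, nsmul_eq_mul, ← sum_filter, sum_const, nsmul_eq_mul,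
    Nat.cast_sub h12]
  have c2 := few_small (y₁ := y₁) hX h2
  have hc1 : 0 ≤ c + 1 := by positivity
  have := mul_le_mul_of_nonneg_right c2 hc1
  linarith

/-- the error term at `y` is small -/
def SmallE4 (N z r n y V : ℕ) : Prop := ‖cv LA (fm N z r) y N n‖ ≤ N / Real.log N ^ V

/-- the lower bound between two points of the grid -/
lemma grid_lower4 (V E1 : ℕ) (hE1 : V + 8 ≤ E1) : ∃ N₀ : ℕ, ∀ N : ℕ, N₀ ≤ N →
    ∀ z r : ℕ, Real.log N ^ E1 ≤ z → (z : ℝ) ≤ Real.log N ^ (E1 + 1) →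
    ∑ n ∈ Icc 1 N, |lamz z n - lsh z r n| ≤ N / Real.log N ^ (V + 6) →
    ∀ n : ℕ, n ≤ N → 2 ∣ n → n ≠ 0 → ∀ y₁ y₂ : ℕ, y₁ ≤ y₂ → y₂ < n → SmallE4 N z r n y₁ (V + 2) →
      SmallE4 N z r n y₂ (V + 2) →
      139 / 1000 * (sing n * ((y₂ : ℝ) - y₁)) - N / Real.log N ^ V ≤ wn n y₁ y₂ ∧ sing n ≤ 2 * Real.log N := by
  obtain ⟨c, Nw, hWB⟩ := ws
  obtain ⟨Nd, hd⟩ := wd (V + 6)
  obtain ⟨X0, hX0⟩ := win_main' (V + 2) E1 (by omega)
  obtain ⟨Ne, hNe⟩ := Filter.eventually_atTop.1 (ev_log (V + 8) (s := 1 / 2) (by norm_num)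
    (100 * (1 + |c|)))
  obtain ⟨Nf, hNf⟩ := Filter.eventually_atTop.1 (ev_log (V + 7) (s := 1 / 1000) (by norm_num) 1)
  refine ⟨Nw + Nd + X0 + Ne + Nf + 1, fun N hN z r hz1 hz2 hsum n hn h2n hn0 y₁ y₂ h12 h2 hs1 hs2 => ?_⟩
  have hN1 : 1 ≤ N := by omega
  have hN0 : (0 : ℝ) < N := by exact_mod_cast hN1
  have hN1r : (1 : ℝ) ≤ N := by exact_mod_cast hN1
  obtain ⟨hLe, hLp⟩ := hNe N (by omega)
  obtain ⟨-, hLq⟩ := hNf N (by omega)
  have hW := hWB N (by omega)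
  have hc := hW.nn
  rw [abs_of_nonneg hc] at hLe
  have hL100 : 100 ≤ Real.log N := by linarith
  obtain ⟨hwin, hS0, hS2⟩ := hX0 N (by omega) n hn h2n hn0 z hz1 hz2
  have hX : (0 : ℝ) ≤ N / Real.log N ^ (V + 6) := by positivity
  have hLL : Real.log N ^ (V + 6) ≤ (N : ℝ) ^ (1 / 1000 : ℝ) :=
    (pow_le_pow_right₀ (by linarith) (by omega)).trans hLq
  have hXbig : (N : ℝ) ^ (999 / 1000 : ℝ) ≤ N / Real.log N ^ (V + 6) := by
    rw [le_div_iff₀ (by positivity)]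
    calc (N : ℝ) ^ (999 / 1000 : ℝ) * Real.log N ^ (V + 6) ≤
          (N : ℝ) ^ (999 / 1000 : ℝ) * (N : ℝ) ^ (1 / 1000 : ℝ) := by gcongr
      _ = N := by
          rw [← Real.rpow_add hN0]
          norm_num
  have hl : ∀ m : ℕ, m ≤ N → (N : ℝ) / Real.log N ^ (V + 6) ≤ m →
      2 ≤ m ∧ 999 / 1000 * Real.log N ≤ Real.log m := by
    intro m _ hm
    have k1 := hXbig.trans hm
    have k2 : 999 / 1000 * Real.log N ≤ Real.log m := by
      rw [← Real.log_rpow hN0]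
      exact Real.log_le_log (by positivity) k1
    refine ⟨?_, k2⟩
    by_contra hcon
    have k3 : Real.log m = 0 := by
      rcases (by omega : m = 0 ∨ m = 1) with h | h <;> rw [h] <;> simp
    rw [k3] at k2
    linarith
  have k1 := wn_lower4 (y₁ := y₁) hX h2 hn hl
  have k2 := swap_model4 (y₁ := y₁) hW h2 hn hsum
  have k3 := det_main4 (la := la) (lz := lamz z) (S := sing n) hW hn h12 h2 (fun y hy => (hwin y hy).1)
  have k4 := dens_lower4 (X := N / Real.log N ^ (V + 6)) hW hn h12 h2 hX (fun b hb hb' => hd N (by omega) b hb hb')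
  have e1 := err_window4 (z := z) (r := r) (lt_of_le_of_lt h12 h2) hn
  have e2 := err_window4 (z := z) (r := r) h2 hn
  unfold SmallE4 at hs1 hs2
  rw [← e1] at hs1
  rw [← e2] at hs2
  have hsplit : ∑ b ∈ Ioc y₁ y₂, la b * gm N (n - b) =
      ∑ b ∈ Ioc y₁ y₂, la b * (Wm N (n - b) * lsh z r (n - b)) +
      (∑ b ∈ Icc 1 y₂, la b * gR N z r (n - b) - ∑ b ∈ Icc 1 y₁, la b * gR N z r (n - b)) := by
    rw [← sum_window _ h12, ← sum_add_distrib]
    refine sum_congr rfl fun b _ => ?_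
    unfold gR
    ring
  rw [hsplit] at k1
  obtain ⟨L, hLd⟩ : ∃ L, L = Real.log (N : ℝ) := ⟨_, rfl⟩
  obtain ⟨S, hSd⟩ : ∃ S, S = sing n := ⟨_, rfl⟩
  rw [← hLd] at hs1 hs2 hLe hLp hL100 k1 k2 k3 k4 hS2 hX ⊢
  rw [← hSd] at k3 hS0 hS2 ⊢
  refine ⟨?_, hS2⟩
  have hL0 : 0 < L := by linarith
  have hL1 : 1 ≤ L := by linarith
  obtain ⟨D, hD⟩ : ∃ D : ℝ, D = N / L ^ (V + 1) := ⟨_, rfl⟩
  have hD0 : 0 < D := by rw [hD]; positivity
  -- sizes of the error terms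
  have hmono : ∀ j : ℕ, (N : ℝ) / L ^ (V + 1 + j) = D / L ^ j := by
    intro j
    rw [hD, pow_add, div_div]
  have z1 : (N : ℝ) / L ^ (V + 2) = D / L := by
    have := hmono 1
    rwa [pow_one] at this
  have z4 : (N : ℝ) / L ^ (V + 2 + 2) = D / L ^ 3 := hmono 3
  have z5 : (N : ℝ) / L ^ (V + 6) = D / L ^ 5 := hmono 5
  have z0 : (N : ℝ) / L ^ V = L * D := by
    rw [hD, pow_succ]
    field_simp
  have hDL : D / L ≤ D / 100 := div_le_div_of_nonneg_left hD0.le (by norm_num) hL100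
  have hcD : c * (D / L) ≤ D / 100 := by
    have h1 : D / L * L = D := div_mul_cancel₀ _ hL0.ne'
    have h3 : D / L * (100 * (1 + c)) ≤ D := by
      calc D / L * (100 * (1 + c)) ≤ D / L * L := mul_le_mul_of_nonneg_left hLe (by positivity)
        _ = D := h1
    have h4 : 0 ≤ D / L := by positivity
    linarith
  have hDL0 : 0 ≤ D / L := by positivity
  have hLpow : ∀ i j : ℕ, i ≤ j → D / L ^ j ≤ D / L ^ i := fun i j hij =>
    div_le_div_of_nonneg_left hD0.le (by positivity) (pow_le_pow_right₀ hL1 hij)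
  -- (a) the small numbers
  have hone : 1 ≤ (N : ℝ) / L ^ (V + 6) := by
    rw [le_div_iff₀ (by positivity), one_mul]
    calc L ^ (V + 6) ≤ L ^ (V + 8) := pow_le_pow_right₀ hL1 (by omega)
      _ ≤ (N : ℝ) ^ (1 / 2 : ℝ) := hLp
      _ ≤ (N : ℝ) ^ (1 : ℝ) := Real.rpow_le_rpow_of_exponent_le hN1r (by norm_num)
      _ = N := Real.rpow_one _
  have ea : 4 * L ^ 2 * (N / L ^ (V + 6) + 1) ≤ D := by
    calc 4 * L ^ 2 * (N / L ^ (V + 6) + 1) ≤ 4 * L ^ 2 * (2 * (N / L ^ (V + 6))) := by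
          apply mul_le_mul_of_nonneg_left _ (by positivity)
          linarith
      _ = 8 * (D / L ^ 3) := by
          rw [z5]
          field_simp
          ring
      _ ≤ 8 * (D / L) := by
          have := hLpow 1 3 (by norm_num)
          rw [pow_one] at this
          linarith
      _ ≤ D := by linarith
  -- (c) the swap of the models
  have ec : c * L * (N / L ^ (V + 6)) ≤ D := by
    calc c * L * (N / L ^ (V + 6)) = c * (D / L ^ 4) := by
          rw [z5]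
          field_simp
      _ ≤ c * (D / L) := by
          have := hLpow 1 4 (by norm_num)
          rw [pow_one] at this
          exact mul_le_mul_of_nonneg_left this hc
      _ ≤ D := by linarith
  -- (d) the main term
  have ed : 4 * c * (2 * (N / L ^ (V + 2 + 2))) ≤ D := by
    rw [z4]
    have g1 := hLpow 1 3 (by norm_num)
    rw [pow_one] at g1
    have g2 := mul_le_mul_of_nonneg_left g1 hc
    linarith
  -- (e) the density
  have ee1 : S * ((c + 1) * (N / L ^ (V + 6) + 1)) ≤ D := by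
    calc S * ((c + 1) * (N / L ^ (V + 6) + 1)) ≤ (2 * L) * ((c + 1) * (2 * (N / L ^ (V + 6)))) := by
          have g1 : N / L ^ (V + 6) + 1 ≤ 2 * (N / L ^ (V + 6)) := by linarith
          gcongr
      _ = 4 * (c + 1) * (D / L ^ 4) := by
          rw [z5]
          field_simp
          ring
      _ ≤ 4 * (c + 1) * (D / L) := by
          have := hLpow 1 4 (by norm_num)
          rw [pow_one] at this
          gcongr
      _ = 4 * (c * (D / L)) + 4 * (D / L) := by ring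
      _ ≤ D := by linarith only [hcD, hDL, hD0]
  obtain ⟨M1, hM1⟩ : ∃ M1, M1 = ∑ b ∈ Ioc y₁ y₂, la b * (Wm N (n - b) * lsh z r (n - b)) := ⟨_, rfl⟩
  obtain ⟨M2, hM2⟩ : ∃ M2, M2 = ∑ b ∈ Ioc y₁ y₂, la b * (Wm N (n - b) * lamz z (n - b)) := ⟨_, rfl⟩
  obtain ⟨M3, hM3⟩ : ∃ M3, M3 = ∑ b ∈ Ioc y₁ y₂, Wm N (n - b) := ⟨_, rfl⟩
  rw [← hM1] at k1
  rw [← hM1, ← hM2] at k2
  rw [← hM2, ← hM3] at k3
  rw [← hM3] at k4
  have m1 := (abs_le.1 k2).1
  have m2 := (abs_le.1 k3).1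
  have m3 := (abs_le.1 hs1).2
  have m4 := (abs_le.1 hs2).1
  have m5 := mul_le_mul_of_nonneg_left k4 hS0
  have m6 : S * (14 / 100 * ((y₂ : ℝ) - y₁) - (c + 1) * (N / L ^ (V + 6) + 1)) =
    14 / 100 * (S * ((y₂ : ℝ) - y₁)) - S * ((c + 1) * (N / L ^ (V + 6) + 1)) := by ring
  rw [m6] at m5
  have m8 : 0 ≤ S * ((y₂ : ℝ) - y₁) := by
    have : (y₁ : ℝ) ≤ y₂ := by exact_mod_cast h12
    exact mul_nonneg hS0 (by linarith)
  rw [z0]
  have m7 : 12 * D ≤ L * D := mul_le_mul_of_nonneg_right (by linarith only [hL100]) hD0.le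
  linarith only [m8, m7, m5, m4, m3, m2, m1, k1, ea, ec, ed, ee1, z1, hDL, hD0]

end Pool.Agent.T6.H3.FF
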